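import Mathlib

set_option autoImplicit false

/-! Digital counting functions (sum of binary digits, number of blocks `11`) and their tables. -/

namespace Q251.MA

/-- weight of a digit one in front of the digit `l` (`r = 0`: sum of digits, `r = 1`: blocks `11`) -/
def hw (r l : ℕ) : ℕ := (1 - r) + r * l

/-- `r = 0`: the sum of the binary digits; `r = 1`: the number of blocks `11` -/
def G (r : ℕ) (n : ℕ) : ℕ :=
  if h : n = 0 then 0 else G r (n / 2) + (n % 2) * hw r ((n / 2) % 2)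
termination_by n
decreasing_by omega

theorem G_zero (r : ℕ) : G r 0 = 0 := by
  rw [G]
  simp

theorem G_rec (r n : ℕ) : G r n = G r (n / 2) + (n % 2) * hw r ((n / 2) % 2) := by
  by_cases h : n = 0
  · subst h
    simp [G_zero]
  · conv_lhs => rw [G]
    rw [dif_neg h]

theorem G_bit {r : ℕ} (Q x : ℕ) (hx : x < 2) : G r (2 * Q + x) = G r Q + x * hw r (Q % 2) := by
  rw [G_rec]
  have h1 : (2 * Q + x) / 2 = Q := by omega
  have h2 : (2 * Q + x) % 2 = x := by omega
  rw [h1, h2]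

theorem G_small {r : ℕ} (x : ℕ) (hx : x < 2) : G r x = x * (1 - r) := by
  have h := G_bit (r := r) 0 x hx
  simpa [G_zero, hw] using h

/-- the block rule -/
theorem G_block {r : ℕ} (_hr : r ≤ 1) (Q : ℕ) : ∀ {K x : ℕ}, x < 2 ^ (K + 1) →
    G r (2 ^ (K + 1) * Q + x) = G r Q + G r x + r * ((Q % 2) * (x / 2 ^ K)) := by
  intro K
  induction K with
  | zero =>
    intro x hx
    have hx2 : x < 2 := by simpa using hx
    rw [zero_add, pow_one, G_bit Q x hx2, G_small x hx2, pow_zero, Nat.div_one]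
    unfold hw
    ring
  | succ K ih =>
    intro x hx
    have h1 : (2 ^ (K + 1 + 1) * Q + x) / 2 = 2 ^ (K + 1) * Q + x / 2 := by
      rw [pow_succ 2 (K + 1)]
      have : 2 ^ (K + 1) * 2 * Q + x = 2 * (2 ^ (K + 1) * Q) + x := by ring
      rw [this]
      omega
    have h2 : (2 ^ (K + 1 + 1) * Q + x) % 2 = x % 2 := by
      rw [pow_succ 2 (K + 1)]
      have : 2 ^ (K + 1) * 2 * Q + x = 2 * (2 ^ (K + 1) * Q) + x := by ring
      rw [this]
      omega
    have hx' : x / 2 < 2 ^ (K + 1) := by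
      rw [pow_succ 2 (K + 1)] at hx
      omega
    have h3 : (2 ^ (K + 1) * Q + x / 2) % 2 = (x / 2) % 2 := by
      rw [pow_succ 2 K]
      have : 2 ^ K * 2 * Q + x / 2 = 2 * (2 ^ K * Q) + x / 2 := by ring
      rw [this]
      omega
    have h4 : x / 2 / 2 ^ K = x / 2 ^ (K + 1) := by
      rw [Nat.div_div_eq_div_mul, pow_succ, mul_comm 2]
    rw [G_rec, h1, h2, h3, ih hx', G_rec r x, h4]
    ring

theorem hw_le {r l : ℕ} (hr : r ≤ 1) (hl : l ≤ 1) : hw r l ≤ 1 := by
  unfold hw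
  interval_cases r <;> interval_cases l <;> simp

/-- appending a digit on the left -/
theorem G_append {r : ℕ} (hr : r ≤ 1) {K x g : ℕ} (hx : x < 2 ^ (K + 1)) (hg : g < 2) :
    G r (x + g * 2 ^ (K + 1)) = G r x + g * hw r (x / 2 ^ K) := by
  have h := G_block hr g hx
  have h1 : 2 ^ (K + 1) * g + x = x + g * 2 ^ (K + 1) := by ring
  rw [h1, G_small g hg] at h
  rw [h, Nat.mod_eq_of_lt hg]
  unfold hw
  ring

/-! ### Boolean folds -/

/-- bounded conjunction -/
def allB (f : ℕ → Bool) : ℕ → Bool :=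
  fun n => Nat.rec (motive := fun _ => Bool) true (fun i ih => and (f i) ih) n

theorem allB_spec {f : ℕ → Bool} {n : ℕ} : allB f n = true ↔ ∀ i < n, f i = true := by
  induction n with
  | zero => simp [allB]
  | succ n ih =>
    have : allB f (n + 1) = (f n && allB f n) := rfl
    rw [this, Bool.and_eq_true, ih]
    constructor
    · rintro ⟨h1, h2⟩ i hi
      rcases Nat.lt_succ_iff_lt_or_eq.1 hi with h | h
      · exact h2 i h
      · rw [h]; exact h1
    · intro h
      exact ⟨h n (Nat.lt_succ_self n), fun i hi => h i (Nat.lt_succ_of_lt hi)⟩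

/-- bounded bitwise disjunction -/
def orF (f : ℕ → ℕ) : ℕ → ℕ :=
  fun n => Nat.rec (motive := fun _ => ℕ) 0 (fun i ih => Nat.lor (f i) ih) n

theorem orF_spec {f : ℕ → ℕ} {n s : ℕ} (h : (orF f n).testBit s = true) :
    ∃ i < n, (f i).testBit s = true := by
  induction n with
  | zero => simp [orF] at h
  | succ n ih =>
    have h1 : orF f (n + 1) = (f n ||| orF f n) := rfl
    rw [h1, Nat.testBit_or, Bool.or_eq_true] at h
    rcases h with h | h
    · exact ⟨n, Nat.lt_succ_self n, h⟩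
    · obtain ⟨i, hi, h2⟩ := ih h
      exact ⟨i, Nat.lt_succ_of_lt hi, h2⟩

/-! ### Tables -/

/-- `n` ones -/
def ones (n : ℕ) : ℕ := 2 ^ n - 1

theorem testBit_ones {n s : ℕ} : (ones n).testBit s = decide (s < n) := by
  unfold ones
  rw [Nat.testBit_two_pow_sub_one]

/-- the mask of the upper half of `2 ^ (h + 1)` positions -/
def topM (h : ℕ) : ℕ := 2 ^ (2 ^ h) * ones (2 ^ h)

theorem testBit_topM {h s : ℕ} : (topM h).testBit s = (decide (2 ^ h ≤ s) && decide (s < 2 ^ (h + 1))) := by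
  have h0 : topM h = 2 ^ (2 ^ h) * ones (2 ^ h) + 0 := by simp [topM]
  rw [h0, Nat.testBit_two_pow_mul_add _ (by positivity)]
  rw [pow_succ]
  by_cases h1 : s < 2 ^ h
  · rw [if_pos h1]
    simp [h1]
  · rw [if_neg h1, testBit_ones]
    have h2 : 2 ^ h ≤ s := not_lt.1 h1
    simp only [h2, decide_true, Bool.true_and]
    congr 1
    apply propext
    omega

/-- one block of a table of size `2 ^ (h + 1)` -/
def blk (r h P a c : ℕ) : ℕ :=
  Nat.xor (Nat.xor P (Nat.mul a (ones (2 ^ (h + 1))))) (Nat.mul (Nat.mul r c) (topM h))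

/-- two consecutive blocks -/
def Bn (r h P a a' c : ℕ) : ℕ :=
  Nat.add (Nat.mul (2 ^ (2 ^ (h + 1))) (blk r h P a' (Nat.sub 1 c))) (blk r h P a c)

/-- `P` is the parity table of `G r` on `[0, 2 ^ (h + 1))` -/
def IsTab (r h P : ℕ) : Prop :=
  P < 2 ^ (2 ^ (h + 1)) ∧ ∀ u < 2 ^ (h + 1), P.testBit u = (G r u).bodd

theorem bodd_mod2 (n : ℕ) : (n % 2).bodd = n.bodd := by
  have h := Nat.mod_two_of_bodd n
  rw [h]
  cases n.bodd <;> rfl

theorem testBit_mul_bit {a x s : ℕ} (ha : a ≤ 1) : (a * x).testBit s = (a.bodd && x.testBit s) := by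
  interval_cases a <;> simp

theorem blk_testBit {r h P m : ℕ} (hr : r ≤ 1) (hP : IsTab r h P) {u : ℕ} (hu : u < 2 ^ (h + 1)) :
    (blk r h P (G r m % 2) (m % 2)).testBit u = (G r (2 ^ (h + 1) * m + u)).bodd := by
  have e : blk r h P (G r m % 2) (m % 2) =
    (P ^^^ ((G r m % 2) * ones (2 ^ (h + 1)))) ^^^ ((r * (m % 2)) * topM h) := rfl
  rw [e, Nat.testBit_xor, Nat.testBit_xor, hP.2 u hu]
  have hm : m % 2 ≤ 1 := by omega
  have hrm : r * (m % 2) ≤ 1 := by
    calc r * (m % 2) ≤ 1 * 1 := Nat.mul_le_mul hr hm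
      _ = 1 := rfl
  rw [testBit_mul_bit (by omega), testBit_mul_bit hrm, testBit_ones, testBit_topM]
  have h1 : decide (u < 2 ^ (h + 1)) = true := by simpa using hu
  rw [h1, Bool.and_true, Bool.and_true, G_block hr m hu, Nat.bodd_add, Nat.bodd_add, bodd_mod2,
    Nat.bodd_mul, Nat.bodd_mul, Nat.bodd_mul, bodd_mod2]
  have h2 : (u / 2 ^ h).bodd = decide (2 ^ h ≤ u) := by
    by_cases h3 : 2 ^ h ≤ u
    · have h4 : u / 2 ^ h = 1 := by
        rw [pow_succ] at hu
        have h5 : u / 2 ^ h < 2 := by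
          rw [Nat.div_lt_iff_lt_mul (by positivity)]
          omega
        have h6 : 0 < u / 2 ^ h := Nat.div_pos h3 (by positivity)
        omega
      rw [h4]
      simp [h3]
    · have h4 : u / 2 ^ h = 0 := Nat.div_eq_of_lt (by omega)
      rw [h4]
      simp [h3]
  rw [h2]
  cases (G r u).bodd <;> cases (G r m).bodd <;> cases r.bodd <;> cases m.bodd <;>
    cases decide (2 ^ h ≤ u) <;> rfl

theorem blk_lt {r h P a c : ℕ} (hP : P < 2 ^ (2 ^ (h + 1))) (ha : a ≤ 1) (hrc : r * c ≤ 1) :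
    blk r h P a c < 2 ^ (2 ^ (h + 1)) := by
  have e : blk r h P a c = (P ^^^ (a * ones (2 ^ (h + 1)))) ^^^ ((r * c) * topM h) := rfl
  have h1 : ones (2 ^ (h + 1)) < 2 ^ (2 ^ (h + 1)) := by
    unfold ones
    have : 0 < 2 ^ (2 ^ (h + 1)) := by positivity
    omega
  have h2 : topM h < 2 ^ (2 ^ (h + 1)) := by
    unfold topM ones
    have h3 : 2 ^ (2 ^ (h + 1)) = 2 ^ (2 ^ h) * 2 ^ (2 ^ h) := by
      rw [← pow_add]
      congr 1
      ring
    rw [h3]
    apply Nat.mul_lt_mul_of_pos_left _ (by positivity)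
    have : 0 < 2 ^ (2 ^ h) := by positivity
    omega
  rw [e]
  apply Nat.xor_lt_two_pow
  · apply Nat.xor_lt_two_pow hP
    calc a * ones (2 ^ (h + 1)) ≤ 1 * ones (2 ^ (h + 1)) := Nat.mul_le_mul_right _ ha
      _ < _ := by rw [one_mul]; exact h1
  · calc r * c * topM h ≤ 1 * topM h := Nat.mul_le_mul_right _ hrc
      _ < _ := by rw [one_mul]; exact h2

/-- the window table for the block number `m` -/
def BM (r h P m : ℕ) : ℕ := Bn r h P (G r m % 2) (G r (m + 1) % 2) (m % 2)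

theorem BM_testBit {r h P m : ℕ} (hr : r ≤ 1) (hP : IsTab r h P) {u : ℕ} (hu : u < 2 ^ (h + 2)) :
    (BM r h P m).testBit u = (G r (2 ^ (h + 1) * m + u)).bodd := by
  have e : BM r h P m = 2 ^ (2 ^ (h + 1)) * blk r h P (G r (m + 1) % 2) (1 - m % 2) +
    blk r h P (G r m % 2) (m % 2) := rfl
  have e2 : 1 - m % 2 = (m + 1) % 2 := by omega
  have hrm : r * (m % 2) ≤ 1 := by
    calc r * (m % 2) ≤ 1 * 1 := Nat.mul_le_mul hr (by omega)
      _ = 1 := rfl
  rw [e, Nat.testBit_two_pow_mul_add _ (blk_lt hP.1 (by omega) hrm)]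
  by_cases h1 : u < 2 ^ (h + 1)
  · rw [if_pos h1, blk_testBit hr hP h1]
  · rw [if_neg h1, e2]
    have h2 : u - 2 ^ (h + 1) < 2 ^ (h + 1) := by
      have : 2 ^ (h + 2) = 2 ^ (h + 1) * 2 := pow_succ 2 (h + 1)
      omega
    rw [blk_testBit hr hP h2]
    congr 2
    have : 2 ^ (h + 1) * (m + 1) = 2 ^ (h + 1) * m + 2 ^ (h + 1) := by ring
    omega

theorem BM_lt {r h P m : ℕ} (hr : r ≤ 1) (hP : IsTab r h P) : BM r h P m < 2 ^ (2 ^ (h + 2)) := by
  have e : BM r h P m = 2 ^ (2 ^ (h + 1)) * blk r h P (G r (m + 1) % 2) (1 - m % 2) +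
    blk r h P (G r m % 2) (m % 2) := rfl
  have e2 : 1 - m % 2 = (m + 1) % 2 := by omega
  have hrm : ∀ m, r * (m % 2) ≤ 1 := by
    intro m
    calc r * (m % 2) ≤ 1 * 1 := Nat.mul_le_mul hr (by omega)
      _ = 1 := rfl
  have h1 := blk_lt (r := r) (h := h) hP.1 (a := G r m % 2) (by omega) (hrm m)
  have h2 := blk_lt (r := r) (h := h) hP.1 (a := G r (m + 1) % 2) (by omega) (hrm (m + 1))
  have h3 : 2 ^ (2 ^ (h + 2)) = 2 ^ (2 ^ (h + 1)) * 2 ^ (2 ^ (h + 1)) := by
    rw [← pow_add]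
    congr 1
    ring
  rw [e, e2, h3]
  calc 2 ^ (2 ^ (h + 1)) * blk r h P (G r (m + 1) % 2) ((m + 1) % 2) + blk r h P (G r m % 2) (m % 2)
      < 2 ^ (2 ^ (h + 1)) * blk r h P (G r (m + 1) % 2) ((m + 1) % 2) + 2 ^ (2 ^ (h + 1)) := by omega
    _ = 2 ^ (2 ^ (h + 1)) * (blk r h P (G r (m + 1) % 2) ((m + 1) % 2) + 1) := by ring
    _ ≤ 2 ^ (2 ^ (h + 1)) * 2 ^ (2 ^ (h + 1)) := Nat.mul_le_mul_left _ h2

/-- the parity tables -/
def tab (r : ℕ) : ℕ → ℕ :=
  fun h => Nat.rec (motive := fun _ => ℕ) (Nat.mul 2 (Nat.sub 1 r))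
    (fun h P => Bn r h P 0 (Nat.sub 1 r) 0) h

theorem isTab_tab {r : ℕ} (hr : r ≤ 1) : ∀ h : ℕ, IsTab r h (tab r h) := by
  intro h
  induction h with
  | zero =>
    have e : tab r 0 = 2 * (1 - r) := rfl
    rw [e]
    refine ⟨?_, ?_⟩
    · norm_num
      omega
    · intro u hu
      have hu2 : u < 2 := by simpa using hu
      rw [G_small u hu2]
      interval_cases u <;> interval_cases r <;> rfl
  | succ h ih =>
    have e : tab r (h + 1) = BM r h (tab r h) 0 := by
      have h1 : G r 0 % 2 = 0 := by rw [G_zero]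
      have h2 : G r (0 + 1) % 2 = 1 - r := by
        rw [zero_add, G_small 1 (by norm_num)]
        omega
      unfold BM
      rw [h1, h2]
      rfl
    rw [e]
    refine ⟨BM_lt hr ih, ?_⟩
    intro u hu
    rw [BM_testBit hr ih hu]
    simp

end Q251.MA
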