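import Mathlib
import Pool.Agent.Q251.MA.Basic

set_option autoImplicit false

/-! Windows of arithmetic progressions and their states. -/

namespace Q251.MA

/-- there is no monochromatic progression of length `L` and difference `d` -/
def NoRun (r d L : ℕ) : Prop :=
  ∀ n : ℕ, ¬ ∀ j < L, (G r (n + j * d)).bodd = (G r n).bodd

theorem NoRun.mono {r d L L' : ℕ} (h : NoRun r d L) (hL : L ≤ L') : NoRun r d L' :=
  fun n hn => h n fun j hj => hn j (lt_of_lt_of_le hj hL)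

/-- a window of `N` terms whose first term is `≡ ρ mod 2 ^ K` is never monochromatic -/
def Bad (r K d ρ N : ℕ) : Prop :=
  ∀ x : ℕ, x % 2 ^ K = ρ → ¬ ∀ i < N, (G r (x + i * d)).bodd = (G r x).bodd

theorem exists_index {K d : ℕ} (hd : Odd d) (n ρ : ℕ) (hρ : ρ < 2 ^ K) :
    ∃ j < 2 ^ K, (n + j * d) % 2 ^ K = ρ := by
  have hcop : Nat.Coprime d (2 ^ K) := (Nat.coprime_two_right.2 hd).pow_right K
  have hpos : 0 < 2 ^ K := by positivity
  have : NeZero (2 ^ K) := ⟨hpos.ne'⟩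
  refine ⟨(((ρ : ZMod (2 ^ K)) - n) * (d : ZMod (2 ^ K))⁻¹).val, ZMod.val_lt _, ?_⟩
  have h1 : (((n + (((ρ : ZMod (2 ^ K)) - n) * (d : ZMod (2 ^ K))⁻¹).val * d : ℕ)) : ZMod (2 ^ K)) =
      ((ρ : ℕ) : ZMod (2 ^ K)) := by
    push_cast
    rw [ZMod.natCast_zmod_val, mul_assoc, mul_comm (d : ZMod (2 ^ K))⁻¹, ZMod.coe_mul_inv_eq_one d hcop]
    ring
  have h2 := (ZMod.natCast_eq_natCast_iff' _ _ _).1 h1
  rw [h2, Nat.mod_eq_of_lt hρ]

theorem Bad.noRun' {r K d ρ N L : ℕ} (h : Bad r K d ρ N) {n j : ℕ} (hj : (n + j * d) % 2 ^ K = ρ)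
    (hL : j + N ≤ L) (hjL : j < L) : ¬ ∀ j < L, (G r (n + j * d)).bodd = (G r n).bodd := by
  intro hn
  apply h (n + j * d) hj
  intro i hi
  have h1 := hn (j + i) (by omega)
  have h2 := hn j hjL
  rw [h2, ← h1]
  congr 2
  ring

theorem Bad.noRun {r K d ρ M : ℕ} (h : Bad r K d ρ (M + 1)) (hd : Odd d) (hρ : ρ < 2 ^ K) :
    NoRun r d (2 ^ K + M) := by
  intro n
  obtain ⟨j, hj, hj2⟩ := exists_index hd n ρ hρ
  exact h.noRun' hj2 (by omega) (by omega)

/-- the state of the `i`-th term of the window `(K, e, ρ)` -/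
def code (r K e ρ i : ℕ) : ℕ :=
  2 * ((ρ + i * e) / 2 ^ (K - 1)) + (G r ((ρ + i * e) % 2 ^ K) + G r ρ) % 2

theorem div_two_pow_succ (x K : ℕ) : x / 2 ^ (K + 1) = x / 2 ^ K / 2 := by
  rw [Nat.div_div_eq_div_mul, pow_succ]

/-- `(x mod 2 ^ (K + 1)) / 2 ^ K` is the lowest digit of `x / 2 ^ K` -/
theorem mod_div_top (x K : ℕ) : x % 2 ^ (K + 1) / 2 ^ K = x / 2 ^ K % 2 := by
  rw [pow_succ, Nat.mod_mul_right_div_self]

/-- one step of the automaton -/
def stepc (r a b i c c0 : ℕ) : ℕ :=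
  2 * (c / 2 / 2 + a + i * b) +
    (c % 2 + (c / 2 / 2 + a + i * b) % 2 * hw r (c / 2 % 2) + a * hw r (c0 / 2 % 2)) % 2

theorem code_step {r : ℕ} (hr : r ≤ 1) {K e ρ a b : ℕ} (hρ : ρ < 2 ^ (K + 1)) (ha : a < 2) (i : ℕ) :
    code r (K + 2) (e + b * 2 ^ (K + 1)) (ρ + a * 2 ^ (K + 1)) i =
      stepc r a b i (code r (K + 1) e ρ i) (code r (K + 1) e ρ 0) := by
  have hx : ρ + a * 2 ^ (K + 1) + i * (e + b * 2 ^ (K + 1)) = (ρ + i * e) + (a + i * b) * 2 ^ (K + 1) := by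
    ring
  have e1 : (ρ + i * e + (a + i * b) * 2 ^ (K + 1)) / 2 ^ (K + 1) =
      (ρ + i * e) / 2 ^ K / 2 + a + i * b := by
    rw [Nat.add_mul_div_right _ _ (by positivity), div_two_pow_succ]
    ring
  have c1 : code r (K + 1) e ρ i / 2 = (ρ + i * e) / 2 ^ K := by
    unfold code
    rw [Nat.add_sub_cancel]
    omega
  have c2 : code r (K + 1) e ρ i % 2 = (G r ((ρ + i * e) % 2 ^ (K + 1)) + G r ρ) % 2 := by
    unfold code
    omega
  have c3 : code r (K + 1) e ρ 0 / 2 % 2 = ρ / 2 ^ K := by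
    unfold code
    rw [Nat.add_sub_cancel]
    have : ρ / 2 ^ K < 2 := by
      rw [Nat.div_lt_iff_lt_mul (by positivity)]
      rw [pow_succ] at hρ
      omega
    simp only [Nat.zero_mul, Nat.add_zero]
    omega
  have hm : (ρ + i * e + (a + i * b) * 2 ^ (K + 1)) % 2 ^ (K + 2) =
      (ρ + i * e) % 2 ^ (K + 1) + (((ρ + i * e) / 2 ^ K / 2 + a + i * b) % 2) * 2 ^ (K + 1) := by
    rw [← e1]
    have h1 := Nat.mod_mul (x := ρ + i * e + (a + i * b) * 2 ^ (K + 1)) (a := 2 ^ (K + 1)) (b := 2)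
    rw [← pow_succ] at h1
    rw [h1, Nat.add_mul_mod_self_right]
    ring
  have hG1 := G_append hr (K := K) (x := (ρ + i * e) % 2 ^ (K + 1))
    (g := ((ρ + i * e) / 2 ^ K / 2 + a + i * b) % 2) (Nat.mod_lt _ (by positivity)) (Nat.mod_lt _ (by norm_num))
  rw [mod_div_top] at hG1
  have hG2 := G_append hr (K := K) hρ ha
  have hc : code r (K + 2) (e + b * 2 ^ (K + 1)) (ρ + a * 2 ^ (K + 1)) i =
      2 * ((ρ + i * e + (a + i * b) * 2 ^ (K + 1)) / 2 ^ (K + 1)) +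
        (G r ((ρ + i * e + (a + i * b) * 2 ^ (K + 1)) % 2 ^ (K + 2)) + G r (ρ + a * 2 ^ (K + 1))) % 2 := by
    unfold code
    rw [hx]
    rfl
  rw [hc, hm, hG1, hG2, e1]
  unfold stepc
  rw [c1, c2, c3]
  omega

/-! ### Contradictory windows -/

/-- bit table of one term of a window -/
def Xc (r B ODD FULL D : ℕ) (cd : ℕ → ℕ) (i : ℕ) : ℕ :=
  Nat.xor (Nat.shiftRight (Nat.xor B (Nat.mul (Nat.mul r (Nat.mod (Nat.div (cd i) 2) 2)) ODD))
    (Nat.add (Nat.mul i D) (Nat.div (cd i) 4))) (Nat.mul (Nat.mod (cd i) 2) FULL)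

/-- the mask of odd positions below `128` -/
def odd7 : ℕ := 226854911280625642308916404954512140970
def full7 : ℕ := 340282366920938463463374607431768211455
def full6 : ℕ := 18446744073709551615

/-- no window with a table `B` is monochromatic -/
def con1 (r B D : ℕ) (cd : ℕ → ℕ) (N : ℕ) : Bool :=
  Nat.beq (Nat.land (orF (fun i => Nat.xor (Xc r B odd7 full7 D cd i) (Xc r B odd7 full7 D cd 0)) N) full6) full6

/-- all eight window tables -/
def con8 (r P : ℕ) (f : ℕ → Bool) : Bool :=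
  and (and (and (f (Bn r 5 P 0 0 0)) (f (Bn r 5 P 0 0 1))) (and (f (Bn r 5 P 0 1 0)) (f (Bn r 5 P 0 1 1))))
    (and (and (f (Bn r 5 P 1 0 0)) (f (Bn r 5 P 1 0 1))) (and (f (Bn r 5 P 1 1 0)) (f (Bn r 5 P 1 1 1))))

/-- the window with states `cd` and step `D` is contradictory -/
def con (r P D : ℕ) (cd : ℕ → ℕ) (N : ℕ) : Bool :=
  and (allB (fun i => Nat.ble (Nat.add (Nat.mul i D) (Nat.div (cd i) 4)) 64) N) (con8 r P fun B => con1 r B D cd N)

theorem con8_spec {r P : ℕ} {f : ℕ → Bool} (h : con8 r P f = true) (m : ℕ) : f (BM r 5 P m) = true := by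
  unfold con8 at h
  simp only [Bool.and_eq_true] at h
  obtain ⟨⟨⟨h1, h2⟩, h3, h4⟩, ⟨h5, h6⟩, h7, h8⟩ := h
  have key : ∀ a a' c : ℕ, a < 2 → a' < 2 → c < 2 → f (Bn r 5 P a a' c) = true := by
    intro a a' c ha hb hc
    interval_cases a <;> interval_cases a' <;> interval_cases c
    exacts [h1, h2, h3, h4, h5, h6, h7, h8]
  exact key _ _ _ (Nat.mod_lt _ (by norm_num)) (Nat.mod_lt _ (by norm_num)) (Nat.mod_lt _ (by norm_num))

theorem testBit_odd7 {s : ℕ} (hs : s < 128) : odd7.testBit s = s.bodd := by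
  have : ∀ s < 128, odd7.testBit s = s.bodd := by decide +kernel
  exact this s hs

theorem testBit_full7 {s : ℕ} (hs : s < 128) : full7.testBit s = true := by
  have : ∀ s < 128, full7.testBit s = true := by decide +kernel
  exact this s hs

theorem testBit_full6 {s : ℕ} (hs : s < 64) : full6.testBit s = true := by
  have : ∀ s < 64, full6.testBit s = true := by decide +kernel
  exact this s hs

theorem Xc_testBit {r : ℕ} (hr : r ≤ 1) {P m D s : ℕ} (hP : IsTab r 5 P) {cd : ℕ → ℕ} {i : ℕ}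
    (hs : s < 64) (hpos : i * D + cd i / 4 ≤ 64) :
    (Xc r (BM r 5 P m) odd7 full7 D cd i).testBit s =
      xor (xor (G r (64 * m + ((i * D + cd i / 4) + s))).bodd
        (r.bodd && (cd i / 2).bodd && ((i * D + cd i / 4) + s).bodd)) (cd i).bodd := by
  have e : Xc r (BM r 5 P m) odd7 full7 D cd i =
      ((BM r 5 P m ^^^ ((r * (cd i / 2 % 2)) * odd7)) >>> (i * D + cd i / 4)) ^^^ ((cd i % 2) * full7) := rfl
  have hrl : r * (cd i / 2 % 2) ≤ 1 := by
    calc r * (cd i / 2 % 2) ≤ 1 * 1 := Nat.mul_le_mul hr (by omega)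
      _ = 1 := rfl
  have hlt : i * D + cd i / 4 + s < 128 := by omega
  have h7 : i * D + cd i / 4 + s < 2 ^ (5 + 2) := hlt
  have hB := BM_testBit hr hP (m := m) (u := i * D + cd i / 4 + s) h7
  have h64 : (2 : ℕ) ^ (5 + 1) = 64 := by norm_num
  rw [h64] at hB
  rw [e, Nat.testBit_xor, Nat.testBit_shiftRight, Nat.testBit_xor, testBit_mul_bit hrl,
    testBit_mul_bit (by omega), testBit_full7 (by omega), testBit_odd7 hlt, hB, Nat.bodd_mul, bodd_mod2,
    bodd_mod2]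
  simp

theorem con_bad {r : ℕ} (hr : r ≤ 1) {P D K e ρ N : ℕ} (hP : IsTab r 5 P) {cd : ℕ → ℕ}
    (h : con r P D cd N = true) (hN : 0 < N) (hcd : ∀ i < N, code r (K + 1) e ρ i = cd i) :
    Bad r (K + 1) (D * 2 ^ (K + 1) + e) ρ N := by
  intro x hx hmono
  unfold con at h
  rw [Bool.and_eq_true, allB_spec] at h
  obtain ⟨hpos, h8⟩ := h
  obtain ⟨q, hq⟩ : ∃ q, q = x / 2 ^ (K + 1) := ⟨_, rfl⟩
  have hxq : x = 2 ^ (K + 1) * q + ρ := by
    rw [hq, ← hx]
    exact (Nat.div_add_mod x (2 ^ (K + 1))).symm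
  obtain ⟨m, hm⟩ : ∃ m, m = q / 64 := ⟨_, rfl⟩
  obtain ⟨s, hs⟩ : ∃ s, s = q % 64 := ⟨_, rfl⟩
  have hqs : q = 64 * m + s := by omega
  have hs64 : s < 64 := by omega
  have h1 := con8_spec h8 m
  unfold con1 at h1
  rw [Nat.beq_eq] at h1
  have h2 : (orF (fun i => Nat.xor (Xc r (BM r 5 P m) odd7 full7 D cd i)
      (Xc r (BM r 5 P m) odd7 full7 D cd 0)) N).testBit s = true := by
    have h3 : (orF (fun i => Nat.xor (Xc r (BM r 5 P m) odd7 full7 D cd i)
      (Xc r (BM r 5 P m) odd7 full7 D cd 0)) N &&& full6).testBit s = true := by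
      have : (orF (fun i => Nat.xor (Xc r (BM r 5 P m) odd7 full7 D cd i)
        (Xc r (BM r 5 P m) odd7 full7 D cd 0)) N &&& full6) = full6 := h1
      rw [this]
      exact testBit_full6 hs64
    rw [Nat.testBit_and, Bool.and_eq_true] at h3
    exact h3.1
  obtain ⟨i, hi, h4⟩ := orF_spec h2
  have h5 : (Xc r (BM r 5 P m) odd7 full7 D cd i ^^^ Xc r (BM r 5 P m) odd7 full7 D cd 0).testBit s =
    true := h4
  rw [Nat.testBit_xor] at h5
  -- each term
  have key : ∀ i < N, (Xc r (BM r 5 P m) odd7 full7 D cd i).testBit s =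
      xor (G r (x + i * (D * 2 ^ (K + 1) + e))).bodd (G r ρ).bodd := by
    intro i hi
    have hp : i * D + cd i / 4 ≤ 64 := Nat.le_of_ble_eq_true (hpos i hi)
    rw [Xc_testBit hr hP hs64 hp]
    have hc := hcd i hi
    have hc4 : cd i / 4 = (ρ + i * e) / 2 ^ (K + 1) := by
      rw [← hc]
      unfold code
      rw [Nat.add_sub_cancel, div_two_pow_succ]
      omega
    have hc2 : cd i / 2 = (ρ + i * e) / 2 ^ K := by
      rw [← hc]
      unfold code
      rw [Nat.add_sub_cancel]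
      omega
    have hcb : (cd i).bodd = xor (G r ((ρ + i * e) % 2 ^ (K + 1))).bodd (G r ρ).bodd := by
      rw [← hc]
      unfold code
      rw [Nat.bodd_add, Nat.bodd_mul, bodd_mod2, Nat.bodd_add]
      simp
    have hX : x + i * (D * 2 ^ (K + 1) + e) =
        2 ^ (K + 1) * (q + (i * D + (ρ + i * e) / 2 ^ (K + 1))) + (ρ + i * e) % 2 ^ (K + 1) := by
      have := Nat.div_add_mod (ρ + i * e) (2 ^ (K + 1))
      rw [hxq]
      nlinarith [this]
    have hblock := G_block hr (q + (i * D + (ρ + i * e) / 2 ^ (K + 1))) (K := K)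
      (x := (ρ + i * e) % 2 ^ (K + 1)) (Nat.mod_lt _ (by positivity))
    rw [← hX, mod_div_top] at hblock
    rw [hblock, hc4, hc2, hcb]
    have e1 : 64 * m + (i * D + (ρ + i * e) / 2 ^ (K + 1) + s) =
      q + (i * D + (ρ + i * e) / 2 ^ (K + 1)) := by rw [hqs]; ring
    have e2 : (i * D + (ρ + i * e) / 2 ^ (K + 1) + s).bodd =
      (q + (i * D + (ρ + i * e) / 2 ^ (K + 1))).bodd := by
      rw [hqs]
      simp only [Nat.bodd_add, Nat.bodd_mul]
      cases (i.bodd && D.bodd) <;> cases ((ρ + i * e) / 2 ^ (K + 1)).bodd <;> cases s.bodd <;> simp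
    rw [e1, e2]
    simp only [Nat.bodd_add, Nat.bodd_mul, bodd_mod2]
    cases (G r (q + (i * D + (ρ + i * e) / 2 ^ (K + 1)))).bodd <;>
      cases (G r ((ρ + i * e) % 2 ^ (K + 1))).bodd <;> cases (G r ρ).bodd <;> cases r.bodd <;>
      cases ((ρ + i * e) / 2 ^ K).bodd <;>
      cases (xor q.bodd (xor (i.bodd && D.bodd) ((ρ + i * e) / 2 ^ (K + 1)).bodd)) <;> rfl
  rw [key i hi, key 0 hN, hmono i hi] at h5
  simp at h5

end Q251.MA
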