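import Mathlib
import Pool.Agent.Q251.MA.State

set_option autoImplicit false

/-! The tree of residue classes. -/

namespace Q251.MA

/-- entry `i` of a packed vector -/
def vec (v i : ℕ) : ℕ := Nat.mod (Nat.shiftRight v (Nat.mul 4 i)) 16

/-- binary digit `i` -/
def bt (q i : ℕ) : ℕ := Nat.mod (Nat.shiftRight q i) 2

/-- all parity patterns occur at the vector `v` -/
def Full (r M K e v : ℕ) : Prop :=
  ∀ p : ℕ → ℕ, (∀ i, p i < 2) → p 0 = 0 → ∃ ρ < 2 ^ K, ∀ i < M + 1, code r K e ρ i = 2 * vec v i + p i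

theorem code_zero_lt {r K e ρ : ℕ} (hρ : ρ < 2 ^ (K + 1)) : code r (K + 1) e ρ 0 < 4 ∧ code r (K + 1) e ρ 0 % 2 = 0 := by
  have h : ρ / 2 ^ K < 2 := by
    rw [Nat.div_lt_iff_lt_mul (by positivity)]
    rw [pow_succ] at hρ
    omega
  unfold code
  simp only [Nat.zero_mul, Nat.add_zero, Nat.add_sub_cancel]
  rw [Nat.mod_eq_of_lt hρ]
  constructor <;> omega

theorem Full.step {r M K e v v' a b : ℕ} (hr : r ≤ 1) (ha : a < 2) (h : Full r M (K + 1) e v)
    (hv : ∀ i < M + 1, vec v' i = vec v i / 2 + a + i * b) : Full r M (K + 2) (e + b * 2 ^ (K + 1)) v' := by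
  -- the first entry
  have hv0 : vec v 0 < 2 := by
    obtain ⟨ρ, hρ, h1⟩ := h (fun _ => 0) (fun _ => by norm_num) rfl
    have h2 := h1 0 (by omega)
    have h3 := (code_zero_lt (r := r) (e := e) hρ).1
    omega
  intro p hp hp0
  obtain ⟨s, hs⟩ : ∃ s : ℕ → ℕ, ∀ i, s i = (vec v i / 2 + a + i * b) % 2 * hw r (vec v i % 2) +
    a * hw r (vec v 0 % 2) := ⟨_, fun i => rfl⟩
  obtain ⟨ρ, hρ, h1⟩ := h (fun i => (p i + s i) % 2) (fun i => Nat.mod_lt _ (by norm_num)) (by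
    have h2 := hs 0
    have h3 : (vec v 0 / 2 + a + 0 * b) % 2 = a := by omega
    rw [h3] at h2
    simp only [hp0, h2]
    omega)
  refine ⟨ρ + a * 2 ^ (K + 1), ?_, fun i hi => ?_⟩
  · rw [pow_succ 2 (K + 1)]
    have : a * 2 ^ (K + 1) ≤ 1 * 2 ^ (K + 1) := Nat.mul_le_mul_right _ (by omega)
    omega
  · rw [code_step hr hρ ha, h1 i hi, h1 0 (by omega)]
    unfold stepc
    have e1 : (2 * vec v i + (p i + s i) % 2) / 2 = vec v i := by omega
    have e2 : (2 * vec v i + (p i + s i) % 2) % 2 = (p i + s i) % 2 := by omega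
    have e3 : (2 * vec v 0 + (p 0 + s 0) % 2) / 2 = vec v 0 := by omega
    rw [e1, e2, e3, ← hv i hi]
    have h4 := hs i
    rw [← hv i hi] at h4
    have h5 := hp i
    omega

/-- the state computed from a table of parities -/
def cdT (T K e ρ i : ℕ) : ℕ :=
  Nat.add (Nat.mul 2 (Nat.shiftRight (Nat.add ρ (Nat.mul i e)) (Nat.sub K 1)))
    (Nat.mod (Nat.add (bt T (Nat.mod (Nat.add ρ (Nat.mul i e)) (Nat.pow 2 K))) (bt T ρ)) 2)

theorem bt_eq (q i : ℕ) : bt q i = (q.testBit i).toNat := by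
  unfold bt
  have h : Nat.mod (Nat.shiftRight q i) 2 = (q >>> i) % 2 := rfl
  rw [h, Nat.testBit_eq_decide_div_mod_eq, Nat.shiftRight_eq_div_pow]
  rcases Nat.mod_two_eq_zero_or_one (q / 2 ^ i) with h1 | h1 <;> rw [h1] <;> rfl

theorem toNat_bodd (n : ℕ) : (n.bodd).toNat = n % 2 := (Nat.mod_two_of_bodd n).symm

theorem cdT_eq {r h T K e ρ i : ℕ} (hT : IsTab r h T) (hK : K ≤ h + 1) (hρ : ρ < 2 ^ K) :
    cdT T K e ρ i = code r K e ρ i := by
  have hle : 2 ^ K ≤ 2 ^ (h + 1) := Nat.pow_le_pow_right (by norm_num) hK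
  have h1 : (ρ + i * e) % 2 ^ K < 2 ^ (h + 1) := lt_of_lt_of_le (Nat.mod_lt _ (by positivity)) hle
  have e1 : cdT T K e ρ i = 2 * ((ρ + i * e) >>> (K - 1)) +
    (bt T ((ρ + i * e) % 2 ^ K) + bt T ρ) % 2 := rfl
  rw [e1, Nat.shiftRight_eq_div_pow, bt_eq, bt_eq, hT.2 _ h1, hT.2 _ (lt_of_lt_of_le hρ hle), toNat_bodd,
    toNat_bodd]
  unfold code
  omega

/-- the tree -/
inductive Tree
  | leaf (w rs : ℕ)
  | node (r1 r2 : ℕ) (t0 t1 : Tree)
  | ref (k : ℕ)

/-- parameters: `r`, `M`, the table `P` of level `5`, the table `T` of level `H`, the two leading parts `D1`, `D2`,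
the list of good vectors -/
structure Par where
  r : ℕ
  M : ℕ
  P : ℕ
  T : ℕ
  H : ℕ
  D1 : ℕ
  D2 : ℕ
  W : List ℕ

/-- membership -/
def memB (w : ℕ) (l : List ℕ) : Bool :=
  List.rec (motive := fun _ => Bool) false (fun x _ ih => or (Nat.beq w x) ih) l

theorem memB_spec {w : ℕ} {l : List ℕ} (h : memB w l = true) : w ∈ l := by
  induction l with
  | nil => exact absurd h (by simp [memB])
  | cons x l ih =>
    have e : memB w (x :: l) = (Nat.beq w x || memB w l) := rfl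
    rw [e, Bool.or_eq_true] at h
    rcases h with h | h
    · rw [Nat.beq_eq] at h
      rw [h]
      exact List.mem_cons_self
    · exact List.mem_cons_of_mem _ (ih h)

/-- some element -/
def anyB (f : ℕ → Bool) (l : List ℕ) : Bool :=
  List.rec (motive := fun _ => Bool) false (fun x _ ih => or (f x) ih) l

theorem anyB_spec {f : ℕ → Bool} {l : List ℕ} (h : anyB f l = true) : ∃ x ∈ l, f x = true := by
  induction l with
  | nil => exact absurd h (by simp [anyB])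
  | cons x l ih =>
    have e : anyB f (x :: l) = (f x || anyB f l) := rfl
    rw [e, Bool.or_eq_true] at h
    rcases h with h | h
    · exact ⟨x, List.mem_cons_self, h⟩
    · obtain ⟨y, hy, hy2⟩ := ih h
      exact ⟨y, List.mem_cons_of_mem _ hy, hy2⟩

/-- all elements -/
def evB (f : ℕ → Bool) (l : List ℕ) : Bool :=
  List.rec (motive := fun _ => Bool) true (fun x _ ih => and (f x) ih) l

theorem evB_spec {f : ℕ → Bool} {l : List ℕ} (h : evB f l = true) : ∀ x ∈ l, f x = true := by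
  induction l with
  | nil => intro x hx; exact absurd hx List.not_mem_nil
  | cons y l ih =>
    have e : evB f (y :: l) = (f y && evB f l) := rfl
    rw [e, Bool.and_eq_true] at h
    intro x hx
    rcases List.mem_cons.1 hx with h1 | h1
    · rw [h1]; exact h.1
    · exact ih h.2 x h1

/-- check of the list of good vectors -/
def chkW (p : Par) : Bool :=
  evB (fun w =>
    and (and (con p.r p.P p.D1 (fun i => Nat.add (Nat.mul 2 (vec w i)) (bt w (Nat.add 24 i))) (Nat.succ p.M))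
      (and (con p.r p.P p.D2 (fun i => Nat.add (Nat.mul 2 (vec w i)) (bt w (Nat.add 32 i))) (Nat.succ p.M))
        (and (Nat.beq (bt w 24) 0) (Nat.beq (bt w 32) 0))))
    (allB (fun b => anyB (fun w' => or
      (allB (fun i => Nat.beq (vec w' i) (Nat.add (Nat.div (vec w i) 2) (Nat.mul i b))) (Nat.succ p.M))
      (allB (fun i => Nat.beq (vec w' i) (Nat.add (Nat.add (Nat.div (vec w i) 2) 1) (Nat.mul i b)))
        (Nat.succ p.M))) p.W) 2)) p.W

/-- the number `ρ` number `q` of a packed list -/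
def res (rs q : ℕ) : ℕ := Nat.mod (Nat.shiftRight rs (Nat.mul 16 q)) 65536

/-- check of a leaf -/
def chkL (p : Par) (K e w rs : ℕ) : Bool :=
  and (and (Nat.ble K (Nat.succ p.H)) (memB w p.W)) (allB (fun q => and (Nat.ble (Nat.succ (res rs q)) (Nat.pow 2 K))
    (allB (fun i => Nat.beq (cdT p.T K e (res rs q) i) (Nat.add (Nat.mul 2 (vec w i)) (bt (Nat.mul 2 q) i)))
      (Nat.succ p.M))) (Nat.pow 2 p.M))

/-- check of one leading part in a node -/
def chkA (p : Par) (L : List ℕ) (K e D ρ : ℕ) : Bool :=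
  or (and (and (Nat.ble K (Nat.succ p.H)) (Nat.ble (Nat.succ ρ) (Nat.pow 2 K))) (con p.r p.P D (fun i => cdT p.T K e ρ i) (Nat.succ p.M)))
    (or (Nat.beq e 1) (or (Nat.beq (Nat.succ e) (Nat.pow 2 K)) (memB (Nat.add (Nat.mul D (Nat.pow 2 K)) e) L)))

/-- a loop: `(K, e, b)`, packed -/
structure Lp where
  K : ℕ
  e : ℕ
  b : ℕ
  ws : ℕ
  t : Tree

/-- the triple of a reference -/
def findR (ls : List Lp) (k K e : ℕ) : Bool :=
  List.rec (motive := fun _ => ℕ → Bool) (fun _ => false)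
    (fun l _ ih k => Nat.rec (motive := fun _ => Bool)
      (and (Nat.beq (Nat.add l.K 0) K) (Nat.beq l.e e))
      (fun k _ => Nat.rec (motive := fun _ => Bool)
        (and (Nat.beq (Nat.add l.K 2) K) (Nat.beq (Nat.add l.e (Nat.mul (Nat.mul 3 l.b) (Nat.pow 2 l.K))) e))
        (fun k _ => ih k) k) k) ls k

theorem findR_spec {ls : List Lp} {k K e : ℕ} (h : findR ls k K e = true) :
    ∃ l ∈ ls, (l.K = K ∧ l.e = e) ∨ (l.K + 2 = K ∧ l.e + 3 * l.b * 2 ^ l.K = e) := by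
  induction ls generalizing k with
  | nil => exact absurd h (by simp [findR])
  | cons l ls ih =>
    match k with
    | 0 =>
      have e1 : findR (l :: ls) 0 K e = (Nat.beq (l.K + 0) K && Nat.beq l.e e) := rfl
      rw [e1, Bool.and_eq_true, Nat.beq_eq, Nat.beq_eq] at h
      exact ⟨l, List.mem_cons_self, Or.inl ⟨by simpa using h.1, h.2⟩⟩
    | 1 =>
      have e1 : findR (l :: ls) 1 K e = (Nat.beq (l.K + 2) K && Nat.beq (l.e + 3 * l.b * 2 ^ l.K) e) := rfl
      rw [e1, Bool.and_eq_true, Nat.beq_eq, Nat.beq_eq] at h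
      exact ⟨l, List.mem_cons_self, Or.inr h⟩
    | k + 2 =>
      have e1 : findR (l :: ls) (k + 2) K e = findR ls k K e := rfl
      rw [e1] at h
      obtain ⟨l', hl', h2⟩ := ih h
      exact ⟨l', List.mem_cons_of_mem _ hl', h2⟩

/-- check of a tree -/
noncomputable def chkT (p : Par) (ls : List Lp) (L : List ℕ) (t : Tree) : ℕ → ℕ → Bool :=
  Tree.rec (motive := fun _ => ℕ → ℕ → Bool)
    (fun w rs K e => chkL p K e w rs)
    (fun r1 r2 _ _ i0 i1 K e => and (and (chkA p L K e p.D1 r1) (chkA p L K e p.D2 r2))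
      (and (i0 (Nat.succ K) e) (i1 (Nat.succ K) (Nat.add e (Nat.pow 2 K)))))
    (fun k K e => findR ls k K e) t

/-- the contradictory windows -/
def Acc (p : Par) (K e D : ℕ) : Prop :=
  ∃ ρ < 2 ^ K, ∃ cd : ℕ → ℕ, con p.r p.P D cd (p.M + 1) = true ∧ ∀ i < p.M + 1, code p.r K e ρ i = cd i

/-- the statement of the tree, one word -/
def Cl (p : Par) (L : List ℕ) (K e : ℕ) : Prop :=
  ∀ D, D = p.D1 ∨ D = p.D2 → Acc p K e D ∨ e = 1 ∨ e + 1 = 2 ^ K ∨ D * 2 ^ K + e ∈ L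

/-- the statement of the tree, all continuations of length `n` -/
def Ok (p : Par) (L : List ℕ) (K e n : ℕ) : Prop := ∀ w < 2 ^ n, Cl p L (K + n) (e + w * 2 ^ K)

theorem Ok.zero {p : Par} {L : List ℕ} {K e : ℕ} (h : Cl p L K e) : Ok p L K e 0 := by
  intro w hw
  have : w = 0 := by simpa using hw
  subst this
  simpa using h

theorem Ok.succ {p : Par} {L : List ℕ} {K e n : ℕ} (h0 : Ok p L (K + 1) e n) (h1 : Ok p L (K + 1) (e + 2 ^ K) n) :
    Ok p L K e (n + 1) := by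
  intro w hw
  have hK : K + (n + 1) = K + 1 + n := by ring
  rw [hK]
  have hw2 : w / 2 < 2 ^ n := by
    rw [pow_succ] at hw
    omega
  rcases Nat.mod_two_eq_zero_or_one w with h | h
  · have := h0 (w / 2) hw2
    have e1 : e + w * 2 ^ K = e + w / 2 * 2 ^ (K + 1) := by
      rw [pow_succ]
      have : w = 2 * (w / 2) := by omega
      conv_lhs => rw [this]
      ring
    rw [e1]
    exact this
  · have := h1 (w / 2) hw2
    have e1 : e + w * 2 ^ K = e + 2 ^ K + w / 2 * 2 ^ (K + 1) := by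
      rw [pow_succ]
      have : w = 2 * (w / 2) + 1 := by omega
      conv_lhs => rw [this]
      ring
    rw [e1]
    exact this

theorem Ok.weaken {p : Par} {L : List ℕ} {K e n : ℕ} (h : Ok p [] K e n) : Ok p L K e n := by
  intro w hw D hD
  rcases h w hw D hD with h1 | h1 | h1 | h1
  · exact Or.inl h1
  · exact Or.inr (Or.inl h1)
  · exact Or.inr (Or.inr (Or.inl h1))
  · exact absurd h1 List.not_mem_nil

theorem chkW_step {p : Par} (hr : p.r ≤ 1) (hW : chkW p = true) {K e w b : ℕ} (hb : b < 2) (hw : w ∈ p.W)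
    (hf : Full p.r p.M (K + 1) e w) : ∃ w' ∈ p.W, Full p.r p.M (K + 2) (e + b * 2 ^ (K + 1)) w' := by
  have h := evB_spec hW w hw
  simp only [Bool.and_eq_true] at h
  have h2 := allB_spec.1 h.2 b hb
  obtain ⟨w', hw', h3⟩ := anyB_spec h2
  rw [Bool.or_eq_true] at h3
  refine ⟨w', hw', ?_⟩
  rcases h3 with h3 | h3
  · apply hf.step hr (a := 0) (by norm_num)
    intro i hi
    have := allB_spec.1 h3 i hi
    rw [Nat.beq_eq] at this
    rw [this]
    rfl
  · apply hf.step hr (a := 1) (by norm_num)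
    intro i hi
    have := allB_spec.1 h3 i hi
    rw [Nat.beq_eq] at this
    rw [this]
    rfl

theorem chkW_cl {p : Par} (hW : chkW p = true) {K e w : ℕ} {L : List ℕ} (hw : w ∈ p.W)
    (hf : Full p.r p.M K e w) : Cl p L K e := by
  have h := evB_spec hW w hw
  simp only [Bool.and_eq_true] at h
  obtain ⟨⟨h1, h2, h3, h4⟩, -⟩ := h
  rw [Nat.beq_eq] at h3 h4
  have hb : ∀ q i, bt q i < 2 := fun q i => Nat.mod_lt _ (by norm_num)
  intro D hD
  left
  rcases hD with hD | hD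
  · rw [hD]
    obtain ⟨ρ, hρ, h5⟩ := hf (fun i => bt w (24 + i)) (fun i => hb _ _) h3
    exact ⟨ρ, hρ, _, h1, fun i hi => h5 i hi⟩
  · rw [hD]
    obtain ⟨ρ, hρ, h5⟩ := hf (fun i => bt w (32 + i)) (fun i => hb _ _) h4
    exact ⟨ρ, hρ, _, h2, fun i hi => h5 i hi⟩

theorem full_ok {p : Par} (hr : p.r ≤ 1) (hW : chkW p = true) {L : List ℕ} : ∀ {n K e w : ℕ}, w ∈ p.W →
    Full p.r p.M (K + 1) e w → Ok p L (K + 1) e n := by
  intro n
  induction n with
  | zero =>
    intro K e w hw hf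
    exact Ok.zero (chkW_cl hW hw hf)
  | succ n ih =>
    intro K e w hw hf
    apply Ok.succ
    · obtain ⟨w', hw', h1⟩ := chkW_step hr hW (b := 0) (by norm_num) hw hf
      have := ih hw' h1
      rw [Nat.zero_mul, Nat.add_zero] at this
      exact this
    · obtain ⟨w', hw', h1⟩ := chkW_step hr hW (b := 1) (by norm_num) hw hf
      have := ih hw' h1
      rw [Nat.one_mul] at this
      exact this

theorem exists_pattern (p : ℕ → ℕ) (hp : ∀ i, p i < 2) (hp0 : p 0 = 0) (M : ℕ) :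
    ∃ q < 2 ^ M, ∀ i < M + 1, bt (2 * q) i = p i := by
  have key : ∀ M : ℕ, ∀ p : ℕ → ℕ, (∀ i, p i < 2) → ∃ q < 2 ^ M, ∀ i < M, bt q i = p i := by
    intro M
    induction M with
    | zero => intro p _; exact ⟨0, by norm_num, fun i hi => absurd hi (by omega)⟩
    | succ M ih =>
      intro p hp
      obtain ⟨q, hq, h⟩ := ih (fun i => p (i + 1)) (fun i => hp _)
      refine ⟨2 * q + p 0, ?_, fun i hi => ?_⟩
      · have := hp 0
        rw [pow_succ]
        omega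
      · match i with
        | 0 =>
          have h1 : bt (2 * q + p 0) 0 = (2 * q + p 0) % 2 := rfl
          have := hp 0
          rw [h1]
          omega
        | i + 1 =>
          have h1 : bt (2 * q + p 0) (i + 1) = ((2 * q + p 0) >>> (i + 1)) % 2 := rfl
          have h2 : bt q i = (q >>> i) % 2 := rfl
          have h3 := h i (by omega)
          rw [h2] at h3
          rw [h1, ← h3, Nat.shiftRight_eq_div_pow, Nat.shiftRight_eq_div_pow, pow_succ, mul_comm (2 ^ i) 2,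
            ← Nat.div_div_eq_div_mul]
          have := hp 0
          congr 2
          omega
  obtain ⟨q, hq, h⟩ := key (M + 1) p hp
  have hq0 : q % 2 = 0 := by
    have := h 0 (by omega)
    have h1 : bt q 0 = q % 2 := rfl
    omega
  refine ⟨q / 2, ?_, ?_⟩
  · rw [pow_succ] at hq
    omega
  · have : 2 * (q / 2) = q := by omega
    rw [this]
    exact h

theorem chkL_full {p : Par} (hT : IsTab p.r p.H p.T) {K e w rs : ℕ}
    (hc : chkL p K e w rs = true) : w ∈ p.W ∧ Full p.r p.M K e w := by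
  unfold chkL at hc
  rw [Bool.and_eq_true, Bool.and_eq_true] at hc
  have hK : K ≤ p.H + 1 := Nat.le_of_ble_eq_true hc.1.1
  refine ⟨memB_spec hc.1.2, ?_⟩
  intro f hf hf0
  obtain ⟨q, hq, h1⟩ := exists_pattern f hf hf0 p.M
  have h2 := allB_spec.1 hc.2 q hq
  rw [Bool.and_eq_true] at h2
  have hρ : res rs q < 2 ^ K := Nat.le_of_ble_eq_true h2.1
  refine ⟨res rs q, hρ, fun i hi => ?_⟩
  have h3 := allB_spec.1 h2.2 i hi
  rw [Nat.beq_eq, cdT_eq hT hK hρ] at h3
  rw [h3]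
  have h4 : Nat.add (Nat.mul 2 (vec w i)) (bt (Nat.mul 2 q) i) = 2 * vec w i + bt (2 * q) i := rfl
  rw [h4, h1 i hi]

theorem chkA_spec {p : Par} (hT : IsTab p.r p.H p.T) {L : List ℕ} {K e D ρ : ℕ}
    (hc : chkA p L K e D ρ = true) : Acc p K e D ∨ e = 1 ∨ e + 1 = 2 ^ K ∨ D * 2 ^ K + e ∈ L := by
  unfold chkA at hc
  simp only [Bool.or_eq_true, Bool.and_eq_true] at hc
  rcases hc with ⟨⟨h0, h1⟩, h2⟩ | h1 | h1 | h1
  · left
    have hK : K ≤ p.H + 1 := Nat.le_of_ble_eq_true h0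
    have hρ : ρ < 2 ^ K := Nat.le_of_ble_eq_true h1
    exact ⟨ρ, hρ, _, h2, fun i _ => (cdT_eq hT hK hρ).symm⟩
  · rw [Nat.beq_eq] at h1
    exact Or.inr (Or.inl h1)
  · rw [Nat.beq_eq] at h1
    exact Or.inr (Or.inr (Or.inl h1))
  · exact Or.inr (Or.inr (Or.inr (memB_spec h1)))

/-- the states of `(K, e)` occur at `(K', e')` -/
def Sub (r M K e K' e' : ℕ) : Prop :=
  ∀ ρ < 2 ^ K, ∃ ρ' < 2 ^ K', ∀ i < M + 1, code r K' e' ρ' i = code r K e ρ i

theorem Sub.step {r M K e K' e' b : ℕ} (hr : r ≤ 1) (h : Sub r M (K + 1) e (K' + 1) e') :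
    Sub r M (K + 2) (e + b * 2 ^ (K + 1)) (K' + 2) (e' + b * 2 ^ (K' + 1)) := by
  intro ρ hρ
  have h1 : ρ % 2 ^ (K + 1) < 2 ^ (K + 1) := Nat.mod_lt _ (by positivity)
  have ha : ρ / 2 ^ (K + 1) < 2 := by
    rw [Nat.div_lt_iff_lt_mul (by positivity)]
    rw [pow_succ] at hρ
    omega
  obtain ⟨ρ', hρ', h2⟩ := h _ h1
  have hρe : ρ = ρ % 2 ^ (K + 1) + ρ / 2 ^ (K + 1) * 2 ^ (K + 1) := by
    have := Nat.mod_add_div ρ (2 ^ (K + 1))
    rw [mul_comm] at this
    exact this.symm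
  obtain ⟨a, hadef⟩ : ∃ a, a = ρ / 2 ^ (K + 1) := ⟨_, rfl⟩
  rw [← hadef] at ha hρe
  refine ⟨ρ' + a * 2 ^ (K' + 1), ?_, fun i hi => ?_⟩
  · rw [pow_succ 2 (K' + 1)]
    have : a * 2 ^ (K' + 1) ≤ 1 * 2 ^ (K' + 1) := Nat.mul_le_mul_right _ (by omega)
    omega
  · rw [hρe, code_step hr hρ' ha, code_step hr h1 ha, h2 i hi, h2 0 (by omega)]

theorem Sub.words {r M : ℕ} (hr : r ≤ 1) : ∀ {n K e K' e' w : ℕ}, Sub r M (K + 1) e (K' + 1) e' → w < 2 ^ n →
    Sub r M (K + 1 + n) (e + w * 2 ^ (K + 1)) (K' + 1 + n) (e' + w * 2 ^ (K' + 1)) := by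
  intro n
  induction n with
  | zero =>
    intro K e K' e' w h hw
    have : w = 0 := by simpa using hw
    subst this
    simpa using h
  | succ n ih =>
    intro K e K' e' w h hw
    have h1 := h.step hr (b := w % 2)
    have hw2 : w / 2 < 2 ^ n := by
      rw [pow_succ] at hw
      omega
    have h2 := ih h1 hw2
    have e1 : K + 1 + 1 + n = K + 1 + (n + 1) := by ring
    have e2 : K' + 1 + 1 + n = K' + 1 + (n + 1) := by ring
    have e3 : ∀ E k : ℕ, E + w % 2 * 2 ^ k + w / 2 * 2 ^ (k + 1) = E + w * 2 ^ k := by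
      intro E k
      rw [pow_succ]
      have : w = w % 2 + 2 * (w / 2) := by omega
      conv_rhs => rw [this]
      ring
    rw [e3, e3, e1, e2] at h2
    exact h2

/-- check of a loop -/
noncomputable def chkLp (p : Par) (ls : List Lp) (l : Lp) : Bool :=
  and (and (and (and (Nat.ble 1 l.K) (Nat.ble (Nat.add l.K 2) (Nat.succ p.H))) (Nat.ble (Nat.succ l.e) (Nat.pow 2 l.K)))
    (and (Nat.ble 1 l.e) (and (or (Nat.ble 2 l.e) (Nat.beq l.b 0))
      (or (Nat.ble (Nat.add 2 l.e) (Nat.pow 2 l.K)) (Nat.beq l.b 1)))))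
    (and (allB (fun ρ => and (Nat.ble (Nat.succ (res l.ws ρ)) (Nat.pow 2 (Nat.add l.K 2)))
      (allB (fun i => Nat.beq (cdT p.T (Nat.add l.K 2) (Nat.add l.e (Nat.mul (Nat.mul 3 l.b) (Nat.pow 2 l.K)))
        (res l.ws ρ) i) (cdT p.T l.K l.e ρ i)) (Nat.succ p.M))) (Nat.pow 2 l.K))
    (Tree.rec (motive := fun _ => Bool) (fun _ _ => false)
      (fun r1 r2 t0 t1 _ _ => and (and (chkA p [] l.K l.e p.D1 r1) (chkA p [] l.K l.e p.D2 r2))
        (and (chkT p ls [] t0 (Nat.succ l.K) l.e) (chkT p ls [] t1 (Nat.succ l.K) (Nat.add l.e (Nat.pow 2 l.K)))))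
      (fun _ => false) l.t))

theorem findR_ok {p : Par} (hr : p.r ≤ 1) {ls : List Lp} {L : List ℕ}
    (hS : ∀ l ∈ ls, 1 ≤ l.K ∧ l.e < 2 ^ l.K ∧ 1 ≤ l.e ∧ (l.e = 1 → l.b = 0) ∧ (l.e + 1 = 2 ^ l.K → l.b = 1) ∧
      Sub p.r p.M l.K l.e (l.K + 2) (l.e + 3 * l.b * 2 ^ l.K))
    {n : ℕ} (hH : ∀ l ∈ ls, Ok p [] l.K l.e n) {k K e : ℕ} (h : findR ls k K e = true) : Ok p L K e n := by
  obtain ⟨l, hl, h1⟩ := findR_spec h
  apply Ok.weaken
  rcases h1 with ⟨h1, h2⟩ | ⟨h1, h2⟩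
  · rw [← h1, ← h2]
    exact hH l hl
  · rw [← h1, ← h2]
    intro w hw D hD
    obtain ⟨hK, hlt, hpos, hb0, hb1, hsub⟩ := hS l hl
    obtain ⟨K', hK'⟩ : ∃ K', l.K = K' + 1 := ⟨l.K - 1, by omega⟩
    have h3 := hH l hl w hw D hD
    have h4 : Sub p.r p.M (l.K + n) (l.e + w * 2 ^ l.K) (l.K + 2 + n) (l.e + 3 * l.b * 2 ^ l.K + w * 2 ^ (l.K + 2)) := by
      rw [hK'] at hsub ⊢
      exact hsub.words hr hw
    have hpow : 2 ^ (l.K + 2) = 4 * 2 ^ l.K := by
      rw [pow_add]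
      ring
    rcases h3 with h3 | h3 | h3 | h3
    · left
      obtain ⟨ρ, hρ, cd, hcon, hcd⟩ := h3
      obtain ⟨ρ', hρ', h5⟩ := h4 ρ hρ
      exact ⟨ρ', hρ', cd, hcon, fun i hi => (h5 i hi).trans (hcd i hi)⟩
    · right
      left
      have h5 : w * 2 ^ l.K = 0 := by omega
      have h6 : w = 0 := by
        rcases Nat.mul_eq_zero.1 h5 with h6 | h6
        · exact h6
        · exact absurd h6 (by positivity)
      subst h6
      have h7 : l.e = 1 := by omega
      rw [hb0 h7, h7]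
      simp
    · right
      right
      left
      have h5 : 2 ^ (l.K + n) = 2 ^ n * 2 ^ l.K := by rw [pow_add, mul_comm]
      have h6 : w + 1 = 2 ^ n := by
        by_contra hne
        have h7 : w + 2 ≤ 2 ^ n := by omega
        have h8 : (w + 2) * 2 ^ l.K ≤ 2 ^ n * 2 ^ l.K := Nat.mul_le_mul_right _ h7
        rw [h5] at h3
        nlinarith
      have h7 : l.e + 1 = 2 ^ l.K := by
        rw [h5, ← h6] at h3
        nlinarith
      rw [hb1 h7]
      have h8 : 2 ^ (l.K + 2 + n) = 2 ^ n * 2 ^ (l.K + 2) := by rw [pow_add _ (l.K + 2) n, mul_comm]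
      rw [h8, ← h6, hpow]
      nlinarith
    · exact absurd h3 List.not_mem_nil

theorem tree_ok {p : Par} (hr : p.r ≤ 1) (hT : IsTab p.r p.H p.T) (hW : chkW p = true) {ls : List Lp}
    (hS : ∀ l ∈ ls, 1 ≤ l.K ∧ l.e < 2 ^ l.K ∧ 1 ≤ l.e ∧ (l.e = 1 → l.b = 0) ∧ (l.e + 1 = 2 ^ l.K → l.b = 1) ∧
      Sub p.r p.M l.K l.e (l.K + 2) (l.e + 3 * l.b * 2 ^ l.K)) {L : List ℕ} (t : Tree) :
    ∀ {K e : ℕ}, chkT p ls L t (K + 1) e = true → ∀ n, (∀ m ≤ n, ∀ l ∈ ls, Ok p [] l.K l.e m) → Ok p L (K + 1) e n := by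
  induction t with
  | leaf w rs =>
    intro K e h n _
    have h1 : chkL p (K + 1) e w rs = true := h
    obtain ⟨h2, h3⟩ := chkL_full hT h1
    exact full_ok hr hW h2 h3
  | node r1 r2 t0 t1 i0 i1 =>
    intro K e h n hn
    have h1 : ((chkA p L (K + 1) e p.D1 r1 && chkA p L (K + 1) e p.D2 r2) &&
      (chkT p ls L t0 (K + 1 + 1) e && chkT p ls L t1 (K + 1 + 1) (e + 2 ^ (K + 1)))) = true := h
    rw [Bool.and_eq_true, Bool.and_eq_true, Bool.and_eq_true] at h1
    obtain ⟨⟨ha1, ha2⟩, h2, h3⟩ := h1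
    match n with
    | 0 =>
      apply Ok.zero
      intro D hD
      rcases hD with hD | hD
      · rw [hD]; exact chkA_spec hT ha1
      · rw [hD]; exact chkA_spec hT ha2
    | n + 1 =>
      apply Ok.succ
      · exact i0 h2 n (fun m hm => hn m (by omega))
      · exact i1 h3 n (fun m hm => hn m (by omega))
  | ref k =>
    intro K e h n hn
    have h1 : findR ls k (K + 1) e = true := h
    exact findR_ok hr hS (hn n le_rfl) h1

/-- the conditions on the loops -/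
def LoopCond (p : Par) (ls : List Lp) : Prop :=
  ∀ l ∈ ls, 1 ≤ l.K ∧ l.e < 2 ^ l.K ∧ 1 ≤ l.e ∧ (l.e = 1 → l.b = 0) ∧ (l.e + 1 = 2 ^ l.K → l.b = 1) ∧
      Sub p.r p.M l.K l.e (l.K + 2) (l.e + 3 * l.b * 2 ^ l.K)

theorem loopCond {p : Par} (hT : IsTab p.r p.H p.T) {ls : List Lp} (hc : ∀ l ∈ ls, chkLp p ls l = true) :
    LoopCond p ls := by
  intro l hl
  have h := hc l hl
  unfold chkLp at h
  simp only [Bool.and_eq_true, Bool.or_eq_true] at h
  obtain ⟨⟨⟨⟨h1, h2⟩, h3⟩, h4, h5, h6⟩, h7, -⟩ := h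
  have h1' := Nat.le_of_ble_eq_true h1
  have h2' : l.K + 2 ≤ p.H + 1 := Nat.le_of_ble_eq_true h2
  have h3' : l.e < 2 ^ l.K := Nat.le_of_ble_eq_true h3
  have h4' := Nat.le_of_ble_eq_true h4
  refine ⟨h1', h3', h4', ?_, ?_, ?_⟩
  · intro he
    rcases h5 with h5 | h5
    · have := Nat.le_of_ble_eq_true h5
      omega
    · exact Nat.beq_eq.mp h5
  · intro he
    rcases h6 with h6 | h6
    · have : 2 + l.e ≤ 2 ^ l.K := Nat.le_of_ble_eq_true h6
      omega
    · exact Nat.beq_eq.mp h6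
  · intro ρ hρ
    have h8 := allB_spec.1 h7 ρ hρ
    rw [Bool.and_eq_true] at h8
    have h9 : res l.ws ρ < 2 ^ (l.K + 2) := Nat.le_of_ble_eq_true h8.1
    refine ⟨res l.ws ρ, h9, fun i hi => ?_⟩
    have h10 := allB_spec.1 h8.2 i hi
    rw [Nat.beq_eq] at h10
    have h11 : cdT p.T (l.K + 2) (l.e + 3 * l.b * 2 ^ l.K) (res l.ws ρ) i = cdT p.T l.K l.e ρ i := h10
    rw [cdT_eq hT h2' h9, cdT_eq hT (by omega) hρ] at h11
    exact h11

theorem loops_ok {p : Par} (hr : p.r ≤ 1) (hT : IsTab p.r p.H p.T) (hW : chkW p = true) {ls : List Lp}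
    (hc : ∀ l ∈ ls, chkLp p ls l = true) : ∀ n, ∀ l ∈ ls, Ok p [] l.K l.e n := by
  have hS := loopCond hT hc
  intro n
  induction n using Nat.strong_induction_on with
  | _ n ih =>
    intro l hl
    have h := hc l hl
    unfold chkLp at h
    rw [Bool.and_eq_true] at h
    have h2 := h.2
    rw [Bool.and_eq_true] at h2
    replace h2 := h2.2
    have hK := (hS l hl).1
    obtain ⟨K', hK'⟩ : ∃ K', l.K = K' + 1 := ⟨l.K - 1, by omega⟩
    cases ht : l.t with
    | leaf w rs => rw [ht] at h2; exact absurd h2 (by simp)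
    | ref k => rw [ht] at h2; exact absurd h2 (by simp)
    | node r1 r2 t0 t1 =>
      rw [ht] at h2
      have h3 : ((chkA p [] l.K l.e p.D1 r1 && chkA p [] l.K l.e p.D2 r2) &&
        (chkT p ls [] t0 (l.K + 1) l.e && chkT p ls [] t1 (l.K + 1) (l.e + 2 ^ l.K))) = true := h2
      rw [Bool.and_eq_true, Bool.and_eq_true, Bool.and_eq_true] at h3
      obtain ⟨⟨ha1, ha2⟩, h4, h5⟩ := h3
      match n with
      | 0 =>
        apply Ok.zero
        intro D hD
        rcases hD with hD | hD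
        · rw [hD]; exact chkA_spec hT ha1
        · rw [hD]; exact chkA_spec hT ha2
      | n + 1 =>
        apply Ok.succ
        · exact tree_ok hr hT hW hS t0 h4 n (fun m hm => ih m (by omega))
        · exact tree_ok hr hT hW hS t1 h5 n (fun m hm => ih m (by omega))

/-- the conclusion of the checks -/
theorem main_ok {p : Par} (hr : p.r ≤ 1) (hT : IsTab p.r p.H p.T) (hP : IsTab p.r 5 p.P) (hW : chkW p = true)
    {ls : List Lp} (hc : ∀ l ∈ ls, chkLp p ls l = true) {L : List ℕ} {t : Tree} (ht : chkT p ls L t 1 1 = true)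
    {K e D : ℕ} (he : Odd e) (heK : e < 2 ^ (K + 1)) (hD : D = p.D1 ∨ D = p.D2) (h1 : e ≠ 1)
    (h2 : e + 1 ≠ 2 ^ (K + 1)) (h3 : D * 2 ^ (K + 1) + e ∉ L) :
    NoRun p.r (D * 2 ^ (K + 1) + e) (2 ^ (K + 1) + p.M) := by
  have hS := loops_ok hr hT hW hc
  have hS' := loopCond hT hc
  have hok := tree_ok (K := 0) hr hT hW hS' t ht K (fun m _ => hS m)
  have hw : e / 2 < 2 ^ K := by
    rw [pow_succ] at heK
    omega
  have h4 := hok (e / 2) hw D hD
  have e1 : 0 + 1 + K = K + 1 := by ring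
  have e2 : 1 + e / 2 * 2 ^ (0 + 1) = e := by
    obtain ⟨m, hm⟩ := he
    omega
  rw [e1, e2] at h4
  rcases h4 with h4 | h4 | h4 | h4
  · obtain ⟨ρ, hρ, cd, hcon, hcd⟩ := h4
    have hbad := con_bad hr hP hcon (Nat.succ_pos _) hcd
    apply hbad.noRun _ hρ
    rw [pow_succ]
    have : D * (2 ^ K * 2) + e = 2 * (D * 2 ^ K) + e := by ring
    rw [this]
    exact Even.add_odd (even_two_mul _) he
  · exact absurd h4 h1
  · exact absurd h4 h2
  · exact absurd h4 h3

end Q251.MA
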