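import Mathlib
import Pool.Agent.Q251.MA.Check

set_option autoImplicit false

/-! Periodic chains of windows, direct checks for small differences, and even differences. -/

namespace Q251.MA

/-- one step of all the states -/
def stepF (r a b : ℕ) (cd : ℕ → ℕ) (i : ℕ) : ℕ := stepc r a b i (cd i) (cd 0)

/-- the check of a periodic chain: the states `cd` (given by a table) return after two steps with the digits `a`,
`b` -/
def chkC (r T K e ρ a b N : ℕ) : Bool :=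
  allB (fun i => Nat.beq (stepF r a b (stepF r a b (cdT T K e ρ)) i) (cdT T K e ρ i)) N

theorem chain {r : ℕ} (hr : r ≤ 1) {h T K e ρ a b N : ℕ} (hT : IsTab r h T) (hK : K ≤ h) (hρ : ρ < 2 ^ (K + 1))
    (ha : a < 2) (hN : 0 < N) (hc : chkC r T (K + 1) e ρ a b N = true) :
    ∀ j : ℕ, ρ + a * (2 ^ (K + 2 * j + 1) - 2 ^ (K + 1)) < 2 ^ (K + 2 * j + 1) ∧
      ∀ i < N, code r (K + 2 * j + 1) (e + b * (2 ^ (K + 2 * j + 1) - 2 ^ (K + 1)))
        (ρ + a * (2 ^ (K + 2 * j + 1) - 2 ^ (K + 1))) i = cdT T (K + 1) e ρ i := by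
  have hcd : ∀ i < N, stepF r a b (stepF r a b (cdT T (K + 1) e ρ)) i = cdT T (K + 1) e ρ i := by
    intro i hi
    have := allB_spec.1 hc i hi
    rwa [Nat.beq_eq] at this
  intro j
  induction j with
  | zero =>
    refine ⟨by simpa using hρ, fun i _ => ?_⟩
    have := cdT_eq (K := K + 1) (e := e) (ρ := ρ) (i := i) hT (by omega) hρ
    simpa using this.symm
  | succ j ih =>
    obtain ⟨h1, h2⟩ := ih
    obtain ⟨R, hR⟩ : ∃ R, R = ρ + a * (2 ^ (K + 2 * j + 1) - 2 ^ (K + 1)) := ⟨_, rfl⟩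
    obtain ⟨E, hE⟩ : ∃ E, E = e + b * (2 ^ (K + 2 * j + 1) - 2 ^ (K + 1)) := ⟨_, rfl⟩
    rw [← hR] at h1 h2
    rw [← hE] at h2
    have hle : 2 ^ (K + 1) ≤ 2 ^ (K + 2 * j + 1) := Nat.pow_le_pow_right (by norm_num) (by omega)
    have hp2 : 2 ^ (K + 2 * j + 2) = 2 * 2 ^ (K + 2 * j + 1) := by ring
    have hp3 : 2 ^ (K + 2 * (j + 1) + 1) = 4 * 2 ^ (K + 2 * j + 1) := by ring
    have hsub : 2 ^ (K + 2 * (j + 1) + 1) - 2 ^ (K + 1) =
        (2 ^ (K + 2 * j + 1) - 2 ^ (K + 1)) + 2 ^ (K + 2 * j + 1) + 2 ^ (K + 2 * j + 2) := by omega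
    have hR2 : ρ + a * (2 ^ (K + 2 * (j + 1) + 1) - 2 ^ (K + 1)) =
        R + a * 2 ^ (K + 2 * j + 1) + a * 2 ^ (K + 2 * j + 2) := by
      rw [hsub, hR]
      ring
    have hE2 : e + b * (2 ^ (K + 2 * (j + 1) + 1) - 2 ^ (K + 1)) =
        E + b * 2 ^ (K + 2 * j + 1) + b * 2 ^ (K + 2 * j + 2) := by
      rw [hsub, hE]
      ring
    have ha1 : a * 2 ^ (K + 2 * j + 1) ≤ 2 ^ (K + 2 * j + 1) := by
      calc a * 2 ^ (K + 2 * j + 1) ≤ 1 * 2 ^ (K + 2 * j + 1) := Nat.mul_le_mul_right _ (by omega)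
        _ = _ := one_mul _
    have ha2 : a * 2 ^ (K + 2 * j + 2) ≤ 2 ^ (K + 2 * j + 2) := by
      calc a * 2 ^ (K + 2 * j + 2) ≤ 1 * 2 ^ (K + 2 * j + 2) := Nat.mul_le_mul_right _ (by omega)
        _ = _ := one_mul _
    have hR1 : R + a * 2 ^ (K + 2 * j + 1) < 2 ^ (K + 2 * j + 2) := by omega
    rw [hR2, hE2]
    refine ⟨by omega, fun i hi => ?_⟩
    have s1 : ∀ i < N, code r (K + 2 * j + 2) (E + b * 2 ^ (K + 2 * j + 1)) (R + a * 2 ^ (K + 2 * j + 1)) i =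
        stepF r a b (cdT T (K + 1) e ρ) i := by
      intro i hi
      rw [code_step hr h1 ha, h2 i hi, h2 0 hN]
      rfl
    have s2 : code r (K + 2 * j + 1 + 2) (E + b * 2 ^ (K + 2 * j + 1) + b * 2 ^ (K + 2 * j + 1 + 1))
        (R + a * 2 ^ (K + 2 * j + 1) + a * 2 ^ (K + 2 * j + 1 + 1)) i =
        stepF r a b (stepF r a b (cdT T (K + 1) e ρ)) i := by
      rw [code_step hr hR1 ha, s1 i hi, s1 0 hN]
      rfl
    have e3 : K + 2 * (j + 1) + 1 = K + 2 * j + 1 + 2 := by ring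
    rw [e3]
    rw [hcd i hi] at s2
    exact s2

/-- the check of the whole chain -/
def chkCh (r P T K e ρ a b D N : ℕ) : Bool :=
  and (chkC r T K e ρ a b N) (con r P D (cdT T K e ρ) N)

theorem chain_bad {r : ℕ} (hr : r ≤ 1) {h T P K e ρ a b D N : ℕ} (hT : IsTab r h T) (hP : IsTab r 5 P) (hK : K ≤ h)
    (hρ : ρ < 2 ^ (K + 1)) (ha : a < 2) (hN : 0 < N) (hc : chkCh r P T (K + 1) e ρ a b D N = true) (j : ℕ) :
    ρ + a * (2 ^ (K + 2 * j + 1) - 2 ^ (K + 1)) < 2 ^ (K + 2 * j + 1) ∧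
    Bad r (K + 2 * j + 1) (D * 2 ^ (K + 2 * j + 1) + (e + b * (2 ^ (K + 2 * j + 1) - 2 ^ (K + 1))))
      (ρ + a * (2 ^ (K + 2 * j + 1) - 2 ^ (K + 1))) N := by
  unfold chkCh at hc
  rw [Bool.and_eq_true] at hc
  obtain ⟨h1, h2⟩ := chain hr hT hK hρ ha hN hc.1 j
  exact ⟨h1, con_bad hr hP hc.2 hN h2⟩

/-! ### Direct checks -/

/-- direct check for the difference `d`, windows of length `2 ^ (h + 1)` -/
def dir1 (h d L B : ℕ) : Bool :=
  Nat.beq (Nat.land (orF (fun j => Nat.xor (Nat.shiftRight B (Nat.mul j d)) B) L) (ones (Nat.pow 2 (Nat.succ h))))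
    (ones (Nat.pow 2 (Nat.succ h)))

/-- all the window tables of level `h` -/
def dir8 (r h P : ℕ) (f : ℕ → Bool) : Bool :=
  and (and (and (f (Bn r h P 0 0 0)) (f (Bn r h P 0 0 1))) (and (f (Bn r h P 0 1 0)) (f (Bn r h P 0 1 1))))
    (and (and (f (Bn r h P 1 0 0)) (f (Bn r h P 1 0 1))) (and (f (Bn r h P 1 1 0)) (f (Bn r h P 1 1 1))))

theorem dir8_spec {r h P : ℕ} {f : ℕ → Bool} (hf : dir8 r h P f = true) (m : ℕ) : f (BM r h P m) = true := by
  unfold dir8 at hf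
  simp only [Bool.and_eq_true] at hf
  obtain ⟨⟨⟨h1, h2⟩, h3, h4⟩, ⟨h5, h6⟩, h7, h8⟩ := hf
  have key : ∀ a a' c : ℕ, a < 2 → a' < 2 → c < 2 → f (Bn r h P a a' c) = true := by
    intro a a' c ha hb hc
    interval_cases a <;> interval_cases a' <;> interval_cases c
    exacts [h1, h2, h3, h4, h5, h6, h7, h8]
  exact key _ _ _ (Nat.mod_lt _ (by norm_num)) (Nat.mod_lt _ (by norm_num)) (Nat.mod_lt _ (by norm_num))

/-- direct check for the difference `d` and the length `L` -/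
def dir (r h d L : ℕ) : Bool :=
  and (and (Nat.ble 1 L) (Nat.ble (Nat.mul L d) (Nat.pow 2 (Nat.succ h)))) (dir8 r h (tab r h) (dir1 h d L))

theorem dir_noRun {r : ℕ} (hr : r ≤ 1) {h d L : ℕ} (hc : dir r h d L = true) : NoRun r d L := by
  unfold dir at hc
  rw [Bool.and_eq_true, Bool.and_eq_true] at hc
  obtain ⟨⟨hL, hLd⟩, h8⟩ := hc
  have hLd' : L * d ≤ 2 ^ (h + 1) := Nat.le_of_ble_eq_true hLd
  intro n hn
  have hP := isTab_tab hr h
  obtain ⟨m, hm⟩ : ∃ m, m = n / 2 ^ (h + 1) := ⟨_, rfl⟩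
  obtain ⟨s, hs⟩ : ∃ s, s = n % 2 ^ (h + 1) := ⟨_, rfl⟩
  have hns : n = 2 ^ (h + 1) * m + s := by rw [hm, hs]; exact (Nat.div_add_mod _ _).symm
  have hslt : s < 2 ^ (h + 1) := by rw [hs]; exact Nat.mod_lt _ (by positivity)
  have h1 := dir8_spec h8 m
  unfold dir1 at h1
  rw [Nat.beq_eq] at h1
  have h2 : (orF (fun j => Nat.xor (Nat.shiftRight (BM r h (tab r h) m) (Nat.mul j d)) (BM r h (tab r h) m))
      L).testBit s = true := by
    have h3 : (orF (fun j => Nat.xor (Nat.shiftRight (BM r h (tab r h) m) (Nat.mul j d)) (BM r h (tab r h) m)) L &&&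
        ones (2 ^ (h + 1))).testBit s = true := by
      have : (orF (fun j => Nat.xor (Nat.shiftRight (BM r h (tab r h) m) (Nat.mul j d)) (BM r h (tab r h) m)) L &&&
        ones (2 ^ (h + 1))) = ones (2 ^ (h + 1)) := h1
      rw [this, testBit_ones]
      simpa using hslt
    rw [Nat.testBit_and, Bool.and_eq_true] at h3
    exact h3.1
  obtain ⟨j, hj, h4⟩ := orF_spec h2
  have h5 : ((BM r h (tab r h) m >>> (j * d)) ^^^ BM r h (tab r h) m).testBit s = true := h4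
  have hpow : 2 ^ (h + 2) = 2 * 2 ^ (h + 1) := by ring
  have hjd : j * d ≤ L * d := Nat.mul_le_mul_right _ hj.le
  rw [Nat.testBit_xor, Nat.testBit_shiftRight, BM_testBit hr hP (by omega), BM_testBit hr hP (by omega)] at h5
  have h6 := hn j hj
  have e1 : 2 ^ (h + 1) * m + (j * d + s) = n + j * d := by rw [hns]; ring
  rw [e1, ← hns, h6] at h5
  simp at h5

end Q251.MA
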