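import Mathlib
import Pool.Agent.Q251.MA.State

set_option autoImplicit false

/-! Complements, even differences, long progressions. -/

namespace Q251.MA

theorem hw_zero (l : ℕ) : hw 0 l = 1 := by simp [hw]

theorem hw_one (l : ℕ) : hw 1 l = l := by simp [hw]

/-- complement, sum of digits -/
theorem compl_zero : ∀ k y : ℕ, y < 2 ^ k → G 0 y + G 0 (2 ^ k - 1 - y) = k := by
  intro k
  induction k with
  | zero =>
    intro y hy
    have : y = 0 := by simpa using hy
    subst this
    simp [G_zero]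
  | succ k ih =>
    intro y hy
    have hp : 2 ^ (k + 1) = 2 * 2 ^ k := by ring
    have h1 : y / 2 < 2 ^ k := by omega
    have h2 : (2 ^ (k + 1) - 1 - y) / 2 = 2 ^ k - 1 - y / 2 := by omega
    have h3 : (2 ^ (k + 1) - 1 - y) % 2 = 1 - y % 2 := by omega
    rw [G_rec 0 y, G_rec 0 (2 ^ (k + 1) - 1 - y), h2, h3, hw_zero, hw_zero]
    have := ih (y / 2) h1
    omega

/-- complement, blocks `11` -/
theorem compl_one : ∀ k y : ℕ, y < 2 ^ k → (G 1 y + G 1 (2 ^ (k + 1) - 1 - y) + y % 2) % 2 = k % 2 := by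
  intro k
  induction k with
  | zero =>
    intro y hy
    have : y = 0 := by simpa using hy
    subst this
    simp [G_small]
  | succ k ih =>
    intro y hy
    have hp : 2 ^ (k + 1) = 2 * 2 ^ k := by ring
    have hp2 : 2 ^ (k + 1 + 1) = 2 * 2 ^ (k + 1) := by ring
    have h1 : y / 2 < 2 ^ k := by omega
    have h2 : (2 ^ (k + 1 + 1) - 1 - y) / 2 = 2 ^ (k + 1) - 1 - y / 2 := by omega
    have h3 : (2 ^ (k + 1 + 1) - 1 - y) % 2 = 1 - y % 2 := by omega
    have h4 : (2 ^ (k + 1) - 1 - y / 2) % 2 = 1 - y / 2 % 2 := by omega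
    rw [G_rec 1 y, G_rec 1 (2 ^ (k + 1 + 1) - 1 - y), h2, h3, h4, hw_one, hw_one]
    have := ih (y / 2) h1
    rcases Nat.mod_two_eq_zero_or_one y with a | a <;> rcases Nat.mod_two_eq_zero_or_one (y / 2) with b | b <;>
      rw [a, b] <;> rw [b] at this <;> omega

theorem bodd_eq_of_mod {a b : ℕ} (h : a % 2 = b % 2) : a.bodd = b.bodd := by
  rw [← bodd_mod2 a, ← bodd_mod2 b, h]

theorem mod_eq_of_bodd {a b : ℕ} (h : a.bodd = b.bodd) : a % 2 = b % 2 := by
  rw [Nat.mod_two_of_bodd, Nat.mod_two_of_bodd, h]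

theorem NoRun.double {r : ℕ} (hr : r ≤ 1) {d L : ℕ} (h : NoRun r d L) : NoRun r (2 * d) L := by
  intro n hn
  have hL : 0 < L := by
    by_contra h0
    exact h 0 (fun j hj => absurd hj (by omega))
  have e1 : ∀ j, (n + j * (2 * d)) / 2 = n / 2 + j * d := by
    intro j
    have : n + j * (2 * d) = n + (j * d) * 2 := by ring
    rw [this]
    omega
  have e2 : ∀ j, (n + j * (2 * d)) % 2 = n % 2 := by
    intro j
    have : n + j * (2 * d) = n + (j * d) * 2 := by ring
    rw [this]
    omega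
  have hG : ∀ j, G r (n + j * (2 * d)) = G r (n / 2 + j * d) + (n % 2) * hw r ((n / 2 + j * d) % 2) := by
    intro j
    have := G_rec r (n + j * (2 * d))
    rw [e1, e2] at this
    exact this
  have hG0 : G r n = G r (n / 2) + (n % 2) * hw r (n / 2 % 2) := G_rec r n
  have hm : ∀ j < L, (G r (n / 2 + j * d) + (n % 2) * hw r ((n / 2 + j * d) % 2)) % 2 =
      (G r (n / 2) + (n % 2) * hw r (n / 2 % 2)) % 2 := by
    intro j hj
    have := mod_eq_of_bodd (hn j hj)
    rw [hG j, hG0] at this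
    exact this
  rcases Nat.lt_or_ge r 1 with h0 | h0
  · have hr0 : r = 0 := by omega
    subst hr0
    apply h (n / 2)
    intro j hj
    apply bodd_eq_of_mod
    have := hm j hj
    rw [hw_zero, hw_zero] at this
    omega
  · have hr1 : r = 1 := by omega
    subst hr1
    rcases Nat.mod_two_eq_zero_or_one n with hn0 | hn1
    · apply h (n / 2)
      intro j hj
      apply bodd_eq_of_mod
      have := hm j hj
      rw [hn0] at this
      omega
    · obtain ⟨k, hk⟩ : ∃ k, n / 2 + L * d < 2 ^ k := ⟨n / 2 + L * d, Nat.lt_two_pow_self⟩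
      have hlt : ∀ j < L, n / 2 + j * d < 2 ^ k := by
        intro j hj
        have : j * d ≤ L * d := Nat.mul_le_mul_right _ hj.le
        omega
      have hp : 2 ^ (k + 1) = 2 * 2 ^ k := by ring
      apply h (2 ^ (k + 1) - 1 - (n / 2 + (L - 1) * d))
      intro j hj
      apply bodd_eq_of_mod
      have c1 := compl_one k _ (hlt (L - 1) (by omega))
      have c2 := compl_one k _ (hlt (L - 1 - j) (by omega))
      have m1 := hm (L - 1) (by omega)
      have m2 := hm (L - 1 - j) (by omega)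
      rw [hn1, hw_one, hw_one] at m1 m2
      have e3 : 2 ^ (k + 1) - 1 - (n / 2 + (L - 1) * d) + j * d = 2 ^ (k + 1) - 1 - (n / 2 + (L - 1 - j) * d) := by
        have h5 : (L - 1) * d = (L - 1 - j) * d + j * d := by
          rw [← Nat.add_mul]
          congr 1
          omega
        have h6 := hlt (L - 1) (by omega)
        rw [h5] at h6 ⊢
        omega
      rw [e3]
      omega

/-- the odd part -/
theorem NoRun.of_odd {r : ℕ} (hr : r ≤ 1) {d L : ℕ} (a : ℕ) (h : NoRun r d L) : NoRun r (2 ^ a * d) L := by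
  induction a with
  | zero => simpa using h
  | succ a ih =>
    have : 2 ^ (a + 1) * d = 2 * (2 ^ a * d) := by ring
    rw [this]
    exact ih.double hr

/-! ### Long progressions -/

theorem G_block' {r : ℕ} (hr : r ≤ 1) (Q : ℕ) {K x : ℕ} (hx : x < 2 ^ K) :
    G r (2 ^ (K + 1) * Q + x) = G r Q + G r x := by
  have h1 : x < 2 ^ (K + 1) := lt_of_lt_of_le hx (Nat.pow_le_pow_right (by norm_num) (by omega))
  rw [G_block hr Q h1, Nat.div_eq_of_lt hx]
  ring

/-- multiples of `2 ^ k - 1`, sum of digits -/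
theorem G0_mul {k m : ℕ} (h1 : 1 ≤ m) (h2 : m ≤ 2 ^ (k + 1)) : G 0 (m * (2 ^ (k + 1) - 1)) = k + 1 := by
  have hp : 1 ≤ 2 ^ (k + 1) := Nat.one_le_two_pow
  have e : m * (2 ^ (k + 1) - 1) = 2 ^ (k + 1) * (m - 1) + (2 ^ (k + 1) - 1 - (m - 1)) := by
    obtain ⟨y, hy⟩ : ∃ y, m = y + 1 := ⟨m - 1, by omega⟩
    obtain ⟨z, hz⟩ : ∃ z, 2 ^ (k + 1) = z + 1 := ⟨2 ^ (k + 1) - 1, by omega⟩
    rw [hz, hy]
    rw [hz, hy] at h2
    have hyz : y ≤ z := by omega
    obtain ⟨w, rfl⟩ := Nat.exists_eq_add_of_le hyz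
    have e1 : y + w + 1 - 1 - (y + 1 - 1) = w := by omega
    have e2 : y + w + 1 - 1 = y + w := by omega
    have e3 : y + 1 - 1 = y := by omega
    rw [e1, e2, e3]
    ring
  have hx : 2 ^ (k + 1) - 1 - (m - 1) < 2 ^ (k + 1) := by omega
  have h3 := G_block (r := 0) (by norm_num) (m - 1) hx
  rw [e, h3, Nat.zero_mul, Nat.add_zero]
  exact compl_zero (k + 1) (m - 1) (by omega)

/-- multiples of `2 ^ k - 1`, blocks `11` -/
theorem G1_mul {k m : ℕ} (h1 : 1 ≤ m) (h2 : m ≤ 2 ^ k) : G 1 (m * (2 ^ (k + 1) - 1)) % 2 = k % 2 := by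
  have hp : 1 ≤ 2 ^ k := Nat.one_le_two_pow
  have hp2 : 2 ^ (k + 1) = 2 * 2 ^ k := by ring
  have e : m * (2 ^ (k + 1) - 1) = 2 ^ (k + 1) * (m - 1) + (2 ^ (k + 1) - 1 - (m - 1)) := by
    obtain ⟨y, hy⟩ : ∃ y, m = y + 1 := ⟨m - 1, by omega⟩
    obtain ⟨z, hz⟩ : ∃ z, 2 ^ (k + 1) = z + 1 := ⟨2 ^ (k + 1) - 1, by omega⟩
    have h2' : m ≤ 2 ^ (k + 1) := by omega
    rw [hz, hy]
    rw [hz, hy] at h2'
    have hyz : y ≤ z := by omega
    obtain ⟨w, rfl⟩ := Nat.exists_eq_add_of_le hyz
    have e1 : y + w + 1 - 1 - (y + 1 - 1) = w := by omega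
    have e2 : y + w + 1 - 1 = y + w := by omega
    have e3 : y + 1 - 1 = y := by omega
    rw [e1, e2, e3]
    ring
  have hx : 2 ^ (k + 1) - 1 - (m - 1) < 2 ^ (k + 1) := by omega
  have h3 := G_block (r := 1) le_rfl (m - 1) hx
  have h4 : (2 ^ (k + 1) - 1 - (m - 1)) / 2 ^ k = 1 := by
    apply Nat.div_eq_of_lt_le <;> omega
  rw [h4] at h3
  have h5 := compl_one k (m - 1) (by omega)
  rw [e, h3]
  omega

theorem G0_ones (k : ℕ) : G 0 (2 ^ k - 1) = k := by
  have := compl_zero k 0 (by positivity)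
  simpa [G_zero] using this

theorem G1_ones (k : ℕ) : G 1 (2 ^ k - 1) = k - 1 := by
  induction k with
  | zero => simp [G_zero]
  | succ k ih =>
    have hp : 2 ^ (k + 1) = 2 * 2 ^ k := by ring
    have hp1 : 1 ≤ 2 ^ k := Nat.one_le_two_pow
    have h2 : (2 ^ (k + 1) - 1) / 2 = 2 ^ k - 1 := by omega
    have h3 : (2 ^ (k + 1) - 1) % 2 = 1 := by omega
    rw [G_rec, h2, h3, ih, hw_one]
    rcases Nat.eq_zero_or_pos k with hk | hk
    · subst hk
      norm_num
    · obtain ⟨k', rfl⟩ : ∃ k', k = k' + 1 := ⟨k - 1, by omega⟩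
      have hp' : 2 ^ (k' + 1) = 2 * 2 ^ k' := by ring
      have hp1' : 1 ≤ 2 ^ k' := Nat.one_le_two_pow
      omega

/-- there is a monochromatic progression of length `L` and difference `d` -/
def HasRun (r d L : ℕ) : Prop := ∃ n : ℕ, ∀ j < L, (G r (n + j * d)).bodd = (G r n).bodd

theorem mul_pred_add {A : ℕ} (hA : 1 ≤ A) : A * (A - 1) + A = A * A := by
  obtain ⟨B, rfl⟩ : ∃ B, A = B + 1 := ⟨A - 1, by omega⟩
  simp only [Nat.add_sub_cancel]
  ring

/-- Thue-Morse, `d = 2 ^ k - 1`, `k` even -/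
theorem run_tm {k : ℕ} (hk : Odd k) : HasRun 0 (2 ^ (k + 1) - 1) (2 ^ (k + 1) + 4) := by
  obtain ⟨A, hA⟩ : ∃ A, A = 2 ^ (k + 1) := ⟨_, rfl⟩
  have hA4 : 4 ≤ A := by
    rw [hA]
    obtain ⟨m, hm⟩ := hk
    calc 4 = 2 ^ 2 := by norm_num
      _ ≤ 2 ^ (k + 1) := Nat.pow_le_pow_right (by norm_num) (by omega)
  have hAA : 2 ^ (2 * k + 1 + 1) = A * A := by rw [hA, ← pow_add]; congr 1; ring
  have hAA2 : A * (A - 1) + A = A * A := mul_pred_add (by omega)
  have blockQ : ∀ Q x : ℕ, x < A * A → G 0 (Q * (A * A) + x) = G 0 Q + G 0 x := by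
    intro Q x hx
    rw [← hAA] at hx
    have h1 := G_block (r := 0) (by norm_num) Q hx
    rw [hAA] at h1
    have e : A * A * Q + x = Q * (A * A) + x := by ring
    rw [e] at h1
    omega
  have blockA : ∀ Q x : ℕ, x < A → G 0 (Q * A + x) = G 0 Q + G 0 x := by
    intro Q x hx
    rw [hA] at hx
    have h1 := G_block (r := 0) (by norm_num) Q hx
    rw [← hA] at h1
    have e : A * Q + x = Q * A + x := by ring
    rw [e] at h1
    omega
  have g1 : G 0 1 = 1 := by simp [G_small]
  have g2 : G 0 2 = 1 := by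
    have := G_bit (r := 0) 1 0 (by norm_num)
    simpa [G_small] using this
  have g3 : G 0 3 = 2 := by
    have := G_bit (r := 0) 1 1 (by norm_num)
    simpa [G_small, hw_zero] using this
  have g4 : G 0 4 = 1 := by
    have := G_bit (r := 0) 2 0 (by norm_num)
    simpa [g2] using this
  have gA : G 0 (A - 1) = k + 1 := by rw [hA]; exact G0_ones (k + 1)
  have gA2 : G 0 (A - 2) = k := by
    have e : A - 2 = 2 * (2 ^ k - 1) + 0 := by
      have : 2 ^ (k + 1) = 2 * 2 ^ k := by ring
      omega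
    rw [e, G_bit _ 0 (by norm_num), G0_ones]
    ring
  have gAA : G 0 (A * A - 1) = 2 * k + 2 := by rw [← hAA]; exact G0_ones _
  refine ⟨3 * (A * A) - (A - 1), ?_⟩
  obtain ⟨c, hc⟩ := hk
  -- all the terms are even
  have key : ∀ j < A + 4, G 0 (3 * (A * A) - (A - 1) + j * (A - 1)) % 2 = 0 := by
    intro j hj
    rcases Nat.lt_or_ge j 1 with h | h
    · have hj0 : j = 0 := by omega
      subst hj0
      have e : 3 * (A * A) - (A - 1) + 0 * (A - 1) = 2 * (A * A) + ((A - 1) * A + 1) := by
        have : (A - 1) * A = A * (A - 1) := by ring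
        omega
      have hlt : (A - 1) * A + 1 < A * A := by
        have : (A - 1) * A = A * (A - 1) := by ring
        omega
      rw [e, blockQ _ _ hlt, blockA _ _ (by omega), g1, g2, gA]
      omega
    · obtain ⟨m, hm⟩ : ∃ m, j = m + 1 := ⟨j - 1, by omega⟩
      subst hm
      have e : 3 * (A * A) - (A - 1) + (m + 1) * (A - 1) = 3 * (A * A) + m * (A - 1) := by
        have : (m + 1) * (A - 1) = m * (A - 1) + (A - 1) := by ring
        rw [this]
        omega
      rw [e]
      rcases Nat.lt_or_ge m 1 with hm0 | hm1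
      · have hm0' : m = 0 := by omega
        subst hm0'
        rw [Nat.zero_mul, blockQ _ _ (by positivity), g3, G_zero]
      · rcases Nat.lt_or_ge m (A + 1) with hmA | hmA
        · have h4 := G0_mul (k := k) hm1 (by rw [← hA]; omega)
          rw [← hA] at h4
          have hlt : m * (A - 1) < A * A := by
            calc m * (A - 1) ≤ A * (A - 1) := Nat.mul_le_mul_right _ (by omega)
              _ < A * A := Nat.mul_lt_mul_of_pos_left (by omega) (by omega)
          rw [blockQ _ _ hlt, g3, h4]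
          omega
        · have hcase : m = A + 1 ∨ m = A + 2 := by omega
          have hB : (A + 1) * (A - 1) = A * A - 1 := by
            have : (A + 1) * (A - 1) = A * (A - 1) + (A - 1) := by ring
            omega
          rcases hcase with hc | hc
          · subst hc
            rw [hB, blockQ _ _ (by omega), g3, gAA]
            omega
          · subst hc
            have e1 : 3 * (A * A) + (A + 2) * (A - 1) = 4 * (A * A) + (A - 2) := by
              have : (A + 2) * (A - 1) = (A + 1) * (A - 1) + (A - 1) := by ring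
              omega
            rw [e1, blockQ _ _ (by omega), g4, gA2]
            omega
  intro j hj
  apply bodd_eq_of_mod
  have h0 := key 0 (by omega)
  rw [Nat.zero_mul, Nat.add_zero] at h0
  rw [← hA] at hj ⊢
  rw [h0]
  exact key j hj

/-- Rudin-Shapiro, `d = 2 ^ k - 1`, `k` odd -/
theorem run_rs_odd {k : ℕ} (hk : Even k) (hk2 : 2 ≤ k) : HasRun 1 (2 ^ (k + 1) - 1) (2 ^ k + 3) := by
  obtain ⟨B, hB⟩ : ∃ B, B = 2 ^ k := ⟨_, rfl⟩
  obtain ⟨A, hA⟩ : ∃ A, A = 2 ^ (k + 1) := ⟨_, rfl⟩
  have hAB : A = 2 * B := by rw [hA, hB]; ring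
  have hB4 : 4 ≤ B := by
    rw [hB]
    calc 4 = 2 ^ 2 := by norm_num
      _ ≤ 2 ^ k := Nat.pow_le_pow_right (by norm_num) hk2
  have hAA : 2 ^ (2 * k + 1 + 1) = A * A := by rw [hA, ← pow_add]; congr 1; ring
  have hAA2 : A * (A - 1) + A = A * A := mul_pred_add (by omega)
  have hABm : 2 ^ (2 * k + 1) = A * B := by rw [hA, hB, ← pow_add]; congr 1; ring
  have hABA : A * A = 2 * (A * B) := by rw [hAB]; ring
  have g1 : G 1 1 = 0 := by simp [G_small]
  have gB : G 1 (B - 1) = k - 1 := by rw [hB]; exact G1_ones k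
  have gA : G 1 (A - 1) = k := by rw [hA]; exact G1_ones (k + 1)
  refine ⟨A * A - (A - 1), ?_⟩
  obtain ⟨c, hc⟩ := hk
  -- `x < A B` (no carry between the top digit and `x`)
  have blockQ : ∀ x : ℕ, x < A * B → G 1 (A * A + x) = G 1 x := by
    intro x hx
    rw [← hABm] at hx
    have h1 := G_block' (r := 1) le_rfl 1 hx
    rw [hAA, g1] at h1
    have e : A * A * 1 + x = A * A + x := by ring
    rw [e] at h1
    omega
  have key : ∀ j < B + 3, G 1 (A * A - (A - 1) + j * (A - 1)) % 2 = 0 := by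
    intro j hj
    rcases Nat.lt_or_ge j 1 with h | h
    · have hj0 : j = 0 := by omega
      subst hj0
      have e : A * A - (A - 1) + 0 * (A - 1) = 2 ^ (k + 1) * (A - 1) + 1 := by
        rw [← hA]
        omega
      have hlt : (1 : ℕ) < 2 ^ k := by rw [← hB]; omega
      rw [e, G_block' le_rfl _ hlt, gA, g1]
      omega
    · obtain ⟨m, hm⟩ : ∃ m, j = m + 1 := ⟨j - 1, by omega⟩
      subst hm
      have e : A * A - (A - 1) + (m + 1) * (A - 1) = A * A + m * (A - 1) := by
        have : (m + 1) * (A - 1) = m * (A - 1) + (A - 1) := by ring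
        rw [this]
        omega
      rw [e]
      rcases Nat.lt_or_ge m (B + 1) with hmB | hmB
      · have hlt : m * (A - 1) < A * B := by
          calc m * (A - 1) ≤ B * (A - 1) := Nat.mul_le_mul_right _ (by omega)
            _ < B * A := Nat.mul_lt_mul_of_pos_left (by omega) (by omega)
            _ = A * B := by ring
        rw [blockQ _ hlt]
        rcases Nat.lt_or_ge m 1 with hm0 | hm1
        · have hm0' : m = 0 := by omega
          subst hm0'
          rw [Nat.zero_mul, G_zero]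
        · have h4 := G1_mul (k := k) hm1 (by rw [← hB]; omega)
          rw [← hA] at h4
          rw [h4]
          omega
      · have hmB' : m = B + 1 := by omega
        subst hmB'
        have e1 : A * A + (B + 1) * (A - 1) = 2 ^ (k + 1) * (A + B) + (B - 1) := by
          rw [← hA]
          have h5 : (B + 1) * (A - 1) = B * (A - 1) + (A - 1) := by ring
          have h6 : B * (A - 1) + B = A * B := by
            obtain ⟨z, rfl⟩ : ∃ z, A = z + 1 := ⟨A - 1, by omega⟩
            simp only [Nat.add_sub_cancel]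
            ring
          have h7 : A * (A + B) = A * A + A * B := by ring
          omega
        have hlt : B - 1 < 2 ^ k := by rw [← hB]; omega
        rw [e1, G_block' le_rfl _ hlt, gB]
        have e2 : A + B = 2 ^ (k + 1) * 1 + 2 ^ k := by rw [hA, hB]; ring
        have hlt2 : 2 ^ k < 2 ^ (k + 1) := by rw [← hB, ← hA]; omega
        rw [e2, G_block le_rfl 1 hlt2, g1, Nat.div_self (by positivity)]
        have e3 : G 1 (2 ^ k) = 0 := by
          have : ∀ k, G 1 (2 ^ k) = 0 := by
            intro k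
            induction k with
            | zero => simpa using g1
            | succ k ih =>
              have := G_bit (r := 1) (2 ^ k) 0 (by norm_num)
              rw [ih] at this
              have e4 : 2 ^ (k + 1) = 2 * 2 ^ k + 0 := by ring
              rw [e4, this]
              ring
          exact this k
        rw [e3]
        omega
  intro j hj
  apply bodd_eq_of_mod
  have h0 := key 0 (by omega)
  rw [Nat.zero_mul, Nat.add_zero] at h0
  rw [← hA]
  rw [← hB] at hj
  rw [h0]
  exact key j hj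

/-- Rudin-Shapiro, `d = 2 ^ k - 1`, `k` even -/
theorem run_rs_even {k : ℕ} (hk : Odd k) (hk2 : 2 ≤ k) : HasRun 1 (2 ^ (k + 1) - 1) (2 ^ k + 1) := by
  obtain ⟨B, hB⟩ : ∃ B, B = 2 ^ k := ⟨_, rfl⟩
  obtain ⟨A, hA⟩ : ∃ A, A = 2 ^ (k + 1) := ⟨_, rfl⟩
  have hAB : A = 2 * B := by rw [hA, hB]; ring
  have hB4 : 4 ≤ B := by
    rw [hB]
    calc 4 = 2 ^ 2 := by norm_num
      _ ≤ 2 ^ k := Nat.pow_le_pow_right (by norm_num) hk2
  have hAA : 2 ^ (2 * k + 1 + 1) = A * A := by rw [hA, ← pow_add]; congr 1; ring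
  have hABm : 2 ^ (2 * k + 1) = A * B := by rw [hA, hB, ← pow_add]; congr 1; ring
  have g1 : G 1 1 = 0 := by simp [G_small]
  have gB : G 1 (B - 1) = k - 1 := by rw [hB]; exact G1_ones k
  refine ⟨A * A + (A - 1), ?_⟩
  obtain ⟨c, hc⟩ := hk
  have blockQ : ∀ x : ℕ, x < A * B → G 1 (A * A + x) = G 1 x := by
    intro x hx
    rw [← hABm] at hx
    have h1 := G_block' (r := 1) le_rfl 1 hx
    rw [hAA, g1] at h1
    have e : A * A * 1 + x = A * A + x := by ring
    rw [e] at h1
    omega
  have key : ∀ j < B + 1, G 1 (A * A + (A - 1) + j * (A - 1)) % 2 = 1 := by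
    intro j hj
    obtain ⟨m, hm⟩ : ∃ m, m = j + 1 := ⟨j + 1, rfl⟩
    have e : A * A + (A - 1) + j * (A - 1) = A * A + m * (A - 1) := by
      rw [hm]
      ring
    rw [e]
    rcases Nat.lt_or_ge m (B + 1) with hmB | hmB
    · have hlt : m * (A - 1) < A * B := by
        calc m * (A - 1) ≤ B * (A - 1) := Nat.mul_le_mul_right _ (by omega)
          _ < B * A := Nat.mul_lt_mul_of_pos_left (by omega) (by omega)
          _ = A * B := by ring
      rw [blockQ _ hlt]
      have h4 := G1_mul (k := k) (m := m) (by omega) (by rw [← hB]; omega)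
      rw [← hA] at h4
      rw [h4]
      omega
    · have hmB' : m = B + 1 := by omega
      rw [hmB']
      have e1 : A * A + (B + 1) * (A - 1) = 2 ^ (k + 1) * (A + B) + (B - 1) := by
        rw [← hA]
        have h5 : (B + 1) * (A - 1) = B * (A - 1) + (A - 1) := by ring
        have h6 : B * (A - 1) + B = A * B := by
          obtain ⟨z, rfl⟩ : ∃ z, A = z + 1 := ⟨A - 1, by omega⟩
          simp only [Nat.add_sub_cancel]
          ring
        have h7 : A * (A + B) = A * A + A * B := by ring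
        omega
      have hlt : B - 1 < 2 ^ k := by rw [← hB]; omega
      rw [e1, G_block' le_rfl _ hlt, gB]
      have e2 : A + B = 2 ^ (k + 1) * 1 + 2 ^ k := by rw [hA, hB]; ring
      have hlt2 : 2 ^ k < 2 ^ (k + 1) := by rw [← hB, ← hA]; omega
      rw [e2, G_block le_rfl 1 hlt2, g1, Nat.div_self (by positivity)]
      have e3 : G 1 (2 ^ k) = 0 := by
        have : ∀ k, G 1 (2 ^ k) = 0 := by
          intro k
          induction k with
          | zero => simpa using g1
          | succ k ih =>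
            have := G_bit (r := 1) (2 ^ k) 0 (by norm_num)
            rw [ih] at this
            have e4 : 2 ^ (k + 1) = 2 * 2 ^ k + 0 := by ring
            rw [e4, this]
            ring
        exact this k
      rw [e3]
      omega
  intro j hj
  apply bodd_eq_of_mod
  have h0 := key 0 (by omega)
  rw [Nat.zero_mul, Nat.add_zero] at h0
  rw [← hA]
  rw [← hB] at hj
  rw [h0]
  exact key j hj

end Q251.MA
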