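import Mathlib
import Pool.Agent.Q251.MA.DataRS
import Pool.Agent.Q251.MA.Chain
import Pool.Agent.Q251.MA.Low

set_option autoImplicit false

/-! Rudin-Shapiro: the checks. -/

namespace Q251.MA.RS

theorem P_eq : tab 1 5 = P := by decide +kernel

theorem T_eq : tab 1 12 = T := by decide +kernel

theorem isTab_P : IsTab 1 5 P := by
  rw [← P_eq]
  exact isTab_tab (by norm_num) 5

theorem isTab_T : IsTab 1 12 T := by
  rw [← T_eq]
  exact isTab_tab (by norm_num) 12

theorem chkW_p : chkW p = true := by decide +kernel

theorem chkM : chkT p ls exc main 1 1 = true := by decide +kernel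

theorem chkLs : ∀ l ∈ ls, chkLp p ls l = true := by
  intro l hl
  have : ls.all (fun l => chkLp p ls l) = true := by decide +kernel
  exact List.all_eq_true.1 this l hl

end Q251.MA.RS
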