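import Mathlib
import Pool.Agent.Q251.MA.RSa

set_option autoImplicit false

/-! Rudin-Shapiro: the bounds. -/

namespace Q251.MA.RS

theorem gen {K e D : ℕ} (hD : D = 2 ∨ D = 3) (he : Odd e) (heK : e < 2 ^ (K + 1)) (h1 : e ≠ 1)
    (h2 : e + 1 ≠ 2 ^ (K + 1)) (h3 : D * 2 ^ (K + 1) + e ∉ exc) :
    NoRun 1 (D * 2 ^ (K + 1) + e) (2 ^ (K + 1) + 5) :=
  main_ok (p := p) le_rfl isTab_T isTab_P chkW_p chkLs chkM (K := K) (e := e) (D := D) he heK hD h1 h2 h3

/-! ### direct -/

theorem small {d : ℕ} (hd : Odd d) (h : d ≤ 21) : NoRun 1 d 16 := by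
  have key : ∀ i < 11, dir 1 8 (2 * i + 1) 16 = true := by decide +kernel
  obtain ⟨m, rfl⟩ := hd
  exact dir_noRun le_rfl (key m (by omega))

theorem s17 : NoRun 1 17 11 := dir_noRun (h := 7) le_rfl (by decide +kernel)
theorem s19 : NoRun 1 19 13 := dir_noRun (h := 7) le_rfl (by decide +kernel)
theorem s21 : NoRun 1 21 11 := dir_noRun (h := 7) le_rfl (by decide +kernel)
theorem s23 : NoRun 1 23 14 := dir_noRun (h := 8) le_rfl (by decide +kernel)
theorem s25 : NoRun 1 25 13 := dir_noRun (h := 8) le_rfl (by decide +kernel)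
theorem s27 : NoRun 1 27 13 := dir_noRun (h := 8) le_rfl (by decide +kernel)
theorem s29 : NoRun 1 29 13 := dir_noRun (h := 8) le_rfl (by decide +kernel)
theorem s33 : NoRun 1 33 19 := dir_noRun (h := 9) le_rfl (by decide +kernel)
theorem s35 : NoRun 1 35 14 := dir_noRun (h := 8) le_rfl (by decide +kernel)
theorem s37 : NoRun 1 37 16 := dir_noRun (h := 9) le_rfl (by decide +kernel)
theorem s39 : NoRun 1 39 23 := dir_noRun (h := 9) le_rfl (by decide +kernel)
theorem s43 : NoRun 1 43 16 := dir_noRun (h := 9) le_rfl (by decide +kernel)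
theorem s53 : NoRun 1 53 14 := dir_noRun (h := 9) le_rfl (by decide +kernel)
theorem s55 : NoRun 1 55 14 := dir_noRun (h := 9) le_rfl (by decide +kernel)
theorem s61 : NoRun 1 61 19 := dir_noRun (h := 10) le_rfl (by decide +kernel)
theorem s85 : NoRun 1 85 16 := dir_noRun (h := 10) le_rfl (by decide +kernel)
theorem s99 : NoRun 1 99 11 := dir_noRun (h := 10) le_rfl (by decide +kernel)
theorem s107 : NoRun 1 107 13 := dir_noRun (h := 10) le_rfl (by decide +kernel)
theorem s109 : NoRun 1 109 12 := dir_noRun (h := 10) le_rfl (by decide +kernel)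
theorem s117 : NoRun 1 117 21 := dir_noRun (h := 11) le_rfl (by decide +kernel)
theorem s435 : NoRun 1 435 16 := dir_noRun (h := 12) le_rfl (by decide +kernel)

/-- the exceptions of the tree -/
theorem exc_bound {K D e : ℕ} (hD : D = 2 ∨ D = 3) (heK : e < 2 ^ (K + 1)) (h : D * 2 ^ (K + 1) + e ∈ exc) :
    NoRun 1 (D * 2 ^ (K + 1) + e) ((D * 2 ^ (K + 1) + e + 7) / 2) ∧
      NoRun 1 (D * 2 ^ (K + 1) + e) (2 ^ (K + 1) + 7) := by
  have he : exc = [19, 27, 29, 35, 37, 39, 43, 53, 55, 61, 85, 99, 107, 109, 117, 435] := rfl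
  rw [he] at h
  obtain ⟨d, hd⟩ : ∃ d, d = D * 2 ^ (K + 1) + e := ⟨_, rfl⟩
  rw [← hd] at h ⊢
  obtain ⟨X, hX⟩ : ∃ X, X = 2 ^ (K + 1) := ⟨_, rfl⟩
  have hX8 : d < 4 * X := by
    rcases hD with hD | hD <;> subst hD <;> rw [← hX] at hd heK <;> omega
  have hX16 : X ≤ 8 ∨ 16 ≤ X := by
    rcases Nat.lt_or_ge K 3 with h3 | h3
    · left
      rw [hX]
      calc 2 ^ (K + 1) ≤ 2 ^ 3 := Nat.pow_le_pow_right (by norm_num) (by omega)
        _ = 8 := by norm_num
    · right
      rw [hX]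
      calc 16 = 2 ^ 4 := by norm_num
        _ ≤ 2 ^ (K + 1) := Nat.pow_le_pow_right (by norm_num) (by omega)
  have hX32 : X ≤ 16 ∨ 32 ≤ X := by
    rcases Nat.lt_or_ge K 4 with h3 | h3
    · left
      rw [hX]
      calc 2 ^ (K + 1) ≤ 2 ^ 4 := Nat.pow_le_pow_right (by norm_num) (by omega)
        _ = 16 := by norm_num
    · right
      rw [hX]
      calc 32 = 2 ^ 5 := by norm_num
        _ ≤ 2 ^ (K + 1) := Nat.pow_le_pow_right (by norm_num) (by omega)
  have hX4 : X ≤ 4 ∨ 8 ≤ X := by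
    rcases Nat.lt_or_ge K 2 with h3 | h3
    · left
      rw [hX]
      calc 2 ^ (K + 1) ≤ 2 ^ 2 := Nat.pow_le_pow_right (by norm_num) (by omega)
        _ = 4 := by norm_num
    · right
      rw [hX]
      calc 8 = 2 ^ 3 := by norm_num
        _ ≤ 2 ^ (K + 1) := Nat.pow_le_pow_right (by norm_num) (by omega)
  rw [← hX]
  simp only [List.mem_cons, List.not_mem_nil, or_false] at h
  rcases h with h | h | h | h | h | h | h | h | h | h | h | h | h | h | h | h <;> rw [h] at hX8 ⊢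
  · exact ⟨s19.mono (by norm_num), s19.mono (by omega)⟩
  · exact ⟨s27.mono (by norm_num), s27.mono (by omega)⟩
  · exact ⟨s29.mono (by norm_num), s29.mono (by omega)⟩
  · exact ⟨s35.mono (by norm_num), s35.mono (by omega)⟩
  · exact ⟨s37.mono (by norm_num), s37.mono (by omega)⟩
  · exact ⟨s39.mono (by norm_num), s39.mono (by omega)⟩
  · exact ⟨s43.mono (by norm_num), s43.mono (by omega)⟩
  · exact ⟨s53.mono (by norm_num), s53.mono (by omega)⟩
  · exact ⟨s55.mono (by norm_num), s55.mono (by omega)⟩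
  · exact ⟨s61.mono (by norm_num), s61.mono (by omega)⟩
  · exact ⟨s85.mono (by norm_num), s85.mono (by omega)⟩
  · exact ⟨s99.mono (by norm_num), s99.mono (by omega)⟩
  · exact ⟨s107.mono (by norm_num), s107.mono (by omega)⟩
  · exact ⟨s109.mono (by norm_num), s109.mono (by omega)⟩
  · exact ⟨s117.mono (by norm_num), s117.mono (by omega)⟩
  · exact ⟨s435.mono (by norm_num), s435.mono (by omega)⟩

end Q251.MA.RS
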