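import Mathlib
import Pool.Agent.Q251.MA.RSb

set_option autoImplicit false

/-! Rudin-Shapiro: the special differences and the final bounds. -/

namespace Q251.MA.RS

theorem odd_D {K D e : ℕ} (he : Odd e) : Odd (D * 2 ^ (K + 1) + e) := by
  rw [pow_succ]
  have : D * (2 ^ K * 2) = 2 * (D * 2 ^ K) := by ring
  rw [this]
  exact Even.add_odd (even_two_mul _) he

theorem odd_pow_pred (K : ℕ) : Odd (2 ^ (K + 1) - 1) := by
  have e2 : 2 ^ (K + 1) = 2 * 2 ^ K := by ring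
  have hp : 1 ≤ 2 ^ K := Nat.one_le_two_pow
  rw [e2]
  exact ⟨2 ^ K - 1, by omega⟩

/-! ### `3 * 2 ^ K + 1` -/

theorem p3_even (j : ℕ) : NoRun 1 (3 * 2 ^ (2 * j + 4) + 1) (2 ^ (2 * j + 4) + 6) := by
  obtain ⟨h1, h2⟩ := chain_bad (r := 1) le_rfl (T := T) (K := 3) (e := 1) (ρ := 14) (a := 1) (b := 0) (D := 3)
    (N := 7) isTab_T isTab_P (by norm_num) (by norm_num) (by norm_num) (by norm_num) (by decide +kernel) j
  have e0 : 3 + 2 * j + 1 = 2 * j + 4 := by ring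
  rw [e0] at h1 h2
  have e1 : 3 * 2 ^ (2 * j + 4) + (1 + 0 * (2 ^ (2 * j + 4) - 2 ^ (3 + 1))) = 3 * 2 ^ (2 * j + 4) + 1 := by ring
  rw [e1] at h2
  exact h2.noRun (odd_D odd_one) h1

theorem p3_odd (j : ℕ) : NoRun 1 (3 * 2 ^ (2 * j + 5) + 1) (2 ^ (2 * j + 5) + 6) := by
  obtain ⟨h1, h2⟩ := chain_bad (r := 1) le_rfl (T := T) (K := 4) (e := 1) (ρ := 1) (a := 0) (b := 0) (D := 3)
    (N := 7) isTab_T isTab_P (by norm_num) (by norm_num) (by norm_num) (by norm_num) (by decide +kernel) j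
  have e0 : 4 + 2 * j + 1 = 2 * j + 5 := by ring
  rw [e0] at h1 h2
  have e1 : 3 * 2 ^ (2 * j + 5) + (1 + 0 * (2 ^ (2 * j + 5) - 2 ^ (4 + 1))) = 3 * 2 ^ (2 * j + 5) + 1 := by ring
  rw [e1] at h2
  exact h2.noRun (odd_D odd_one) h1

/-! ### `3 * 2 ^ K - 1` -/

theorem m3_even (j : ℕ) : NoRun 1 (2 * 2 ^ (2 * j + 4) + (2 ^ (2 * j + 4) - 1)) (2 ^ (2 * j + 4) + 6) := by
  obtain ⟨h1, h2⟩ := chain_bad (r := 1) le_rfl (T := T) (K := 3) (e := 15) (ρ := 14) (a := 1) (b := 1) (D := 2)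
    (N := 7) isTab_T isTab_P (by norm_num) (by norm_num) (by norm_num) (by norm_num) (by decide +kernel) j
  have e0 : 3 + 2 * j + 1 = 2 * j + 4 := by ring
  rw [e0] at h1 h2
  have hle : 2 ^ (3 + 1) ≤ 2 ^ (2 * j + 4) := Nat.pow_le_pow_right (by norm_num) (by omega)
  have e1 : 15 + 1 * (2 ^ (2 * j + 4) - 2 ^ (3 + 1)) = 2 ^ (2 * j + 4) - 1 := by
    norm_num at hle ⊢
    omega
  rw [e1] at h2
  exact h2.noRun (odd_D (odd_pow_pred _)) h1

theorem m3_odd (j : ℕ) : NoRun 1 (2 * 2 ^ (2 * j + 5) + (2 ^ (2 * j + 5) - 1)) (2 ^ (2 * j + 5) + 6) := by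
  obtain ⟨h1, h2⟩ := chain_bad (r := 1) le_rfl (T := T) (K := 4) (e := 31) (ρ := 30) (a := 1) (b := 1) (D := 2)
    (N := 7) isTab_T isTab_P (by norm_num) (by norm_num) (by norm_num) (by norm_num) (by decide +kernel) j
  have e0 : 4 + 2 * j + 1 = 2 * j + 5 := by ring
  rw [e0] at h1 h2
  have hle : 2 ^ (4 + 1) ≤ 2 ^ (2 * j + 5) := Nat.pow_le_pow_right (by norm_num) (by omega)
  have e1 : 31 + 1 * (2 ^ (2 * j + 5) - 2 ^ (4 + 1)) = 2 ^ (2 * j + 5) - 1 := by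
    norm_num at hle ⊢
    omega
  rw [e1] at h2
  exact h2.noRun (odd_D (odd_pow_pred _)) h1

/-! ### `2 ^ k - 1` -/

/-- `k = K + 1` odd -/
theorem minus_odd (j : ℕ) : NoRun 1 (2 ^ (2 * j + 5) - 1) (2 ^ (2 * j + 4) + 4) := by
  obtain ⟨h1, h2⟩ := chain_bad (r := 1) le_rfl (T := T) (K := 3) (e := 15) (ρ := 2) (a := 0) (b := 1) (D := 1)
    (N := 5) isTab_T isTab_P (by norm_num) (by norm_num) (by norm_num) (by norm_num) (by decide +kernel) j
  have e0 : 3 + 2 * j + 1 = 2 * j + 4 := by ring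
  rw [e0] at h1 h2
  have hle : 2 ^ (3 + 1) ≤ 2 ^ (2 * j + 4) := Nat.pow_le_pow_right (by norm_num) (by omega)
  have e1 : 1 * 2 ^ (2 * j + 4) + (15 + 1 * (2 ^ (2 * j + 4) - 2 ^ (3 + 1))) = 2 ^ (2 * j + 5) - 1 := by
    have : 2 ^ (2 * j + 5) = 2 * 2 ^ (2 * j + 4) := by ring
    norm_num at hle ⊢
    omega
  rw [e1] at h2
  exact h2.noRun (odd_pow_pred _) h1

/-- positions in a progression with `d ≡ -1` -/
theorem res_minus {X q n i : ℕ} {d : ℕ} (hd : d + 1 = X * q) (hi : i ≤ n % X) :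
    (n + i * d) % X = n % X - i := by
  obtain ⟨c, hc⟩ : ∃ c, c = n % X := ⟨_, rfl⟩
  have h1 := Nat.div_add_mod n X
  rw [← hc] at h1 hi ⊢
  have h2 : n + i * d = (c - i) + X * (n / X + i * q) := by
    have h3 : i * (d + 1) = X * (i * q) := by rw [hd]; ring
    have h4 : X * (n / X + i * q) = X * (n / X) + X * (i * q) := by ring
    have h5 : i * (d + 1) = i * d + i := by ring
    omega
  rw [h2, Nat.add_mul_mod_self_left]
  apply Nat.mod_eq_of_lt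
  rcases Nat.eq_zero_or_pos X with h0 | h0
  · subst h0
    simp at hd
  · have : c < X := by rw [hc]; exact Nat.mod_lt _ h0
    omega

/-- positions in a progression with `d ≡ 1` -/
theorem res_plus {X q n i u ρ : ℕ} {d : ℕ} (hd : d = X * q + 1) (hρ : ρ < X) (hi : n % X + i = X * u + ρ) :
    (n + i * d) % X = ρ := by
  have h1 := Nat.div_add_mod n X
  have h2 : n + i * d = ρ + X * (n / X + i * q + u) := by
    rw [hd]
    have h4 : i * (X * q + 1) = X * (i * q) + i := by ring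
    have h5 : X * (n / X + i * q + u) = X * (n / X) + X * (i * q) + X * u := by ring
    omega
  rw [h2, Nat.add_mul_mod_self_left]
  exact Nat.mod_eq_of_lt hρ

/-- `k = K + 1` even -/
theorem minus_even (j : ℕ) : NoRun 1 (2 ^ (2 * j + 6) - 1) (2 ^ (2 * j + 5) + 2) := by
  have w1 := (chain_bad (r := 1) le_rfl (T := T) (K := 4) (e := 31) (ρ := 1) (a := 0) (b := 1) (D := 1)
    (N := 8) isTab_T isTab_P (by norm_num) (by norm_num) (by norm_num) (by norm_num) (by decide +kernel) j).2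
  have w2 := (chain_bad (r := 1) le_rfl (T := T) (K := 4) (e := 31) (ρ := 6) (a := 0) (b := 1) (D := 1)
    (N := 10) isTab_T isTab_P (by norm_num) (by norm_num) (by norm_num) (by norm_num) (by decide +kernel) j).2
  have w3 := (chain_bad (r := 1) le_rfl (T := T) (K := 4) (e := 31) (ρ := 12) (a := 0) (b := 1) (D := 1)
    (N := 15) isTab_T isTab_P (by norm_num) (by norm_num) (by norm_num) (by norm_num) (by decide +kernel) j).2
  have w4 := (chain_bad (r := 1) le_rfl (T := T) (K := 4) (e := 31) (ρ := 0) (a := 0) (b := 1) (D := 1)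
    (N := 14) isTab_T isTab_P (by norm_num) (by norm_num) (by norm_num) (by norm_num) (by decide +kernel) j).2
  have e0 : 4 + 2 * j + 1 = 2 * j + 5 := by ring
  rw [e0] at w1 w2 w3 w4
  have hle : 2 ^ (4 + 1) ≤ 2 ^ (2 * j + 5) := Nat.pow_le_pow_right (by norm_num) (by omega)
  have e1 : 1 * 2 ^ (2 * j + 5) + (31 + 1 * (2 ^ (2 * j + 5) - 2 ^ (4 + 1))) = 2 ^ (2 * j + 6) - 1 := by
    have : 2 ^ (2 * j + 6) = 2 * 2 ^ (2 * j + 5) := by ring
    norm_num at hle ⊢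
    omega
  rw [e1, Nat.zero_mul, Nat.add_zero] at w1 w2 w3 w4
  have hX32 : 32 ≤ 2 ^ (2 * j + 5) := by norm_num at hle; exact hle
  have hd : 2 ^ (2 * j + 6) - 1 + 1 = 2 ^ (2 * j + 5) * 2 := by
    have : 2 ^ (2 * j + 6) = 2 * 2 ^ (2 * j + 5) := by ring
    omega
  intro n
  have hc : n % 2 ^ (2 * j + 5) < 2 ^ (2 * j + 5) := Nat.mod_lt _ (by positivity)
  obtain ⟨c, hcc⟩ : ∃ c, c = n % 2 ^ (2 * j + 5) := ⟨_, rfl⟩
  have hres : ∀ i ≤ c, (n + i * (2 ^ (2 * j + 6) - 1)) % 2 ^ (2 * j + 5) = c - i := by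
    intro i hi
    rw [hcc] at hi ⊢
    exact res_minus hd hi
  rw [← hcc] at hc
  by_cases c0 : c = 0
  · apply w4.noRun' (j := 0) _ (by omega) (by omega)
    rw [hres 0 (by omega)]
    omega
  · by_cases c1 : c + 5 ≤ 2 ^ (2 * j + 5)
    · apply w1.noRun' (j := c - 1) _ (by omega) (by omega)
      rw [hres (c - 1) (by omega)]
      omega
    · by_cases c2 : c + 2 ≤ 2 ^ (2 * j + 5)
      · apply w2.noRun' (j := c - 6) _ (by omega) (by omega)
        rw [hres (c - 6) (by omega)]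
        omega
      · apply w3.noRun' (j := c - 12) _ (by omega) (by omega)
        rw [hres (c - 12) (by omega)]
        omega

/-! ### `2 ^ k + 1` -/

/-- `k = K + 1` even -/
theorem plus_even (j : ℕ) : NoRun 1 (2 * 2 ^ (2 * j + 5) + 1) (2 ^ (2 * j + 5) + 4) := by
  obtain ⟨-, w1⟩ := chain_bad (r := 1) le_rfl (T := T) (K := 4) (e := 1) (ρ := 30) (a := 1) (b := 0) (D := 2)
    (N := 6) isTab_T isTab_P (by norm_num) (by norm_num) (by norm_num) (by norm_num) (by decide +kernel) j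
  obtain ⟨-, w2⟩ := chain_bad (r := 1) le_rfl (T := T) (K := 4) (e := 1) (ρ := 27) (a := 1) (b := 0) (D := 2)
    (N := 8) isTab_T isTab_P (by norm_num) (by norm_num) (by norm_num) (by norm_num) (by decide +kernel) j
  have e0 : 4 + 2 * j + 1 = 2 * j + 5 := by ring
  rw [e0] at w1 w2
  have hle : 2 ^ (4 + 1) ≤ 2 ^ (2 * j + 5) := Nat.pow_le_pow_right (by norm_num) (by omega)
  have e1 : 2 * 2 ^ (2 * j + 5) + (1 + 0 * (2 ^ (2 * j + 5) - 2 ^ (4 + 1))) = 2 * 2 ^ (2 * j + 5) + 1 := by ring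
  have e2 : 30 + 1 * (2 ^ (2 * j + 5) - 2 ^ (4 + 1)) = 2 ^ (2 * j + 5) - 2 := by
    norm_num at hle ⊢
    omega
  have e3 : 27 + 1 * (2 ^ (2 * j + 5) - 2 ^ (4 + 1)) = 2 ^ (2 * j + 5) - 5 := by
    norm_num at hle ⊢
    omega
  rw [e1, e2] at w1
  rw [e1, e3] at w2
  have hX32 : 32 ≤ 2 ^ (2 * j + 5) := by norm_num at hle; exact hle
  have hd : 2 * 2 ^ (2 * j + 5) + 1 = 2 ^ (2 * j + 5) * 2 + 1 := by ring
  intro n
  have hc : n % 2 ^ (2 * j + 5) < 2 ^ (2 * j + 5) := Nat.mod_lt _ (by positivity)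
  obtain ⟨c, hcc⟩ : ∃ c, c = n % 2 ^ (2 * j + 5) := ⟨_, rfl⟩
  rw [← hcc] at hc
  by_cases c1 : c + 1 = 2 ^ (2 * j + 5)
  · apply w2.noRun' (j := 2 ^ (2 * j + 5) - 4) _ (by omega) (by omega)
    apply res_plus (u := 1) hd (by omega)
    rw [← hcc]
    omega
  · apply w1.noRun' (j := 2 ^ (2 * j + 5) - 2 - c) _ (by omega) (by omega)
    apply res_plus (u := 0) hd (by omega)
    rw [← hcc]
    omega

/-- `k = K + 1` odd -/
theorem plus_odd (j : ℕ) : NoRun 1 (2 * 2 ^ (2 * j + 6) + 1) (2 ^ (2 * j + 6) + 4) := by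
  obtain ⟨-, w1⟩ := chain_bad (r := 1) le_rfl (T := T) (K := 5) (e := 1) (ρ := 62) (a := 1) (b := 0) (D := 2)
    (N := 9) isTab_T isTab_P (by norm_num) (by norm_num) (by norm_num) (by norm_num) (by decide +kernel) j
  obtain ⟨-, w2⟩ := chain_bad (r := 1) le_rfl (T := T) (K := 5) (e := 1) (ρ := 51) (a := 1) (b := 0) (D := 2)
    (N := 15) isTab_T isTab_P (by norm_num) (by norm_num) (by norm_num) (by norm_num) (by decide +kernel) j
  have e0 : 5 + 2 * j + 1 = 2 * j + 6 := by ring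
  rw [e0] at w1 w2
  have hle : 2 ^ (5 + 1) ≤ 2 ^ (2 * j + 6) := Nat.pow_le_pow_right (by norm_num) (by omega)
  have e1 : 2 * 2 ^ (2 * j + 6) + (1 + 0 * (2 ^ (2 * j + 6) - 2 ^ (5 + 1))) = 2 * 2 ^ (2 * j + 6) + 1 := by ring
  have e2 : 62 + 1 * (2 ^ (2 * j + 6) - 2 ^ (5 + 1)) = 2 ^ (2 * j + 6) - 2 := by
    norm_num at hle ⊢
    omega
  have e3 : 51 + 1 * (2 ^ (2 * j + 6) - 2 ^ (5 + 1)) = 2 ^ (2 * j + 6) - 13 := by
    norm_num at hle ⊢
    omega
  rw [e1, e2] at w1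
  rw [e1, e3] at w2
  have hX64 : 64 ≤ 2 ^ (2 * j + 6) := by norm_num at hle; exact hle
  have hd : 2 * 2 ^ (2 * j + 6) + 1 = 2 ^ (2 * j + 6) * 2 + 1 := by ring
  intro n
  have hc : n % 2 ^ (2 * j + 6) < 2 ^ (2 * j + 6) := Nat.mod_lt _ (by positivity)
  obtain ⟨c, hcc⟩ : ∃ c, c = n % 2 ^ (2 * j + 6) := ⟨_, rfl⟩
  rw [← hcc] at hc
  by_cases c1 : c + 1 = 2 ^ (2 * j + 6)
  · apply w2.noRun' (j := 2 ^ (2 * j + 6) - 12) _ (by omega) (by omega)
    apply res_plus (u := 1) hd (by omega)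
    rw [← hcc]
    omega
  · by_cases c2 : c ≤ 2
    · apply w2.noRun' (j := 2 ^ (2 * j + 6) - 13 - c) _ (by omega) (by omega)
      apply res_plus (u := 0) hd (by omega)
      rw [← hcc]
      omega
    · apply w1.noRun' (j := 2 ^ (2 * j + 6) - 2 - c) _ (by omega) (by omega)
      apply res_plus (u := 0) hd (by omega)
      rw [← hcc]
      omega

end Q251.MA.RS
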