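import Mathlib
import Pool.Agent.Q251.MA.RSc

set_option autoImplicit false

/-! Rudin-Shapiro: the final bounds. -/

namespace Q251.MA.RS

/-- the special differences -/
def Sp (d : ℕ) : Prop := ∃ k, 5 ≤ k ∧ Odd k ∧ d = 2 ^ k - 1

theorem decomp {d K : ℕ} (hd : Odd d) (h1 : 2 ^ (K + 2) < d) (h2 : d < 2 ^ (K + 3)) :
    ∃ D e : ℕ, (D = 2 ∨ D = 3) ∧ d = D * 2 ^ (K + 1) + e ∧ e < 2 ^ (K + 1) ∧ Odd e := by
  have p2 : 2 ^ (K + 2) = 2 * 2 ^ (K + 1) := by ring
  have p3 : 2 ^ (K + 3) = 4 * 2 ^ (K + 1) := by ring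
  have hpos : 0 < 2 ^ (K + 1) := by positivity
  have hpe : Even (2 ^ (K + 1)) := by
    rw [pow_succ, mul_comm]
    exact even_two_mul _
  have key : ∀ D e : ℕ, d = D * 2 ^ (K + 1) + e → Odd e := by
    intro D e h
    have h3 : Even (D * 2 ^ (K + 1)) := hpe.mul_left D
    rw [h] at hd
    exact (Nat.odd_add'.1 hd).2 h3
  rcases Nat.lt_or_ge d (3 * 2 ^ (K + 1)) with h3 | h3
  · exact ⟨2, d - 2 * 2 ^ (K + 1), Or.inl rfl, by omega, by omega, key 2 _ (by omega)⟩
  · exact ⟨3, d - 3 * 2 ^ (K + 1), Or.inr rfl, by omega, by omega, key 3 _ (by omega)⟩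

/-- all the cases -/
theorem cases_bound {d K : ℕ} (hK : 2 ≤ K) (hd : Odd d) (h1 : 2 ^ (K + 2) < d) (h2 : d + 1 < 2 ^ (K + 3)) :
    NoRun 1 d (2 ^ (K + 1) + 7) ∧ (23 ≤ d → NoRun 1 d ((d + 7) / 2)) := by
  obtain ⟨D, e, hD, hde, heK, heo⟩ := decomp hd h1 (by omega)
  obtain ⟨X, hX⟩ : ∃ X, X = 2 ^ (K + 1) := ⟨_, rfl⟩
  have p3 : 2 ^ (K + 3) = 4 * 2 ^ (K + 1) := by ring
  have hX8 : 8 ≤ X := by
    rw [hX]
    calc 8 = 2 ^ 3 := by norm_num
      _ ≤ 2 ^ (K + 1) := Nat.pow_le_pow_right (by norm_num) (by omega)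
  have hlow : K = 2 ∨ (∃ j, K + 1 = 2 * j + 4) ∨ (∃ j, K + 1 = 2 * j + 5) := by
    rcases Nat.lt_or_ge K 3 with h | h
    · left; omega
    · right
      rcases Nat.even_or_odd' (K + 1) with ⟨c, hc | hc⟩
      · left; exact ⟨c - 2, by omega⟩
      · right; exact ⟨c - 2, by omega⟩
  by_cases he1 : e = 1
  · subst he1
    rcases hD with hD | hD
    · subst hD
      rcases hlow with h | ⟨j, hj⟩ | ⟨j, hj⟩
      · subst h
        norm_num at hde
        rw [hde]
        exact ⟨s17.mono (by norm_num), fun h => absurd h (by norm_num)⟩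
      · rcases Nat.eq_zero_or_pos j with h0 | h0
        · subst h0
          have hK3 : K = 3 := by omega
          subst hK3
          norm_num at hde
          rw [hde]
          exact ⟨s33.mono (by norm_num), fun _ => s33.mono (by norm_num)⟩
        · obtain ⟨i, rfl⟩ : ∃ i, j = i + 1 := ⟨j - 1, by omega⟩
          have hj2 : K + 1 = 2 * i + 6 := by omega
          have h3 := plus_odd i
          rw [← hj2, ← hde] at h3
          exact ⟨h3.mono (by omega), fun _ => h3.mono (by omega)⟩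
      · have h3 := plus_even j
        rw [← hj, ← hde] at h3
        exact ⟨h3.mono (by omega), fun _ => h3.mono (by omega)⟩
    · subst hD
      rcases hlow with h | ⟨j, hj⟩ | ⟨j, hj⟩
      · subst h
        norm_num at hde
        rw [hde]
        exact ⟨s25.mono (by norm_num), fun _ => s25.mono (by norm_num)⟩
      · have h3 := p3_even j
        rw [← hj, ← hde] at h3
        exact ⟨h3.mono (by omega), fun _ => h3.mono (by omega)⟩
      · have h3 := p3_odd j
        rw [← hj, ← hde] at h3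
        exact ⟨h3.mono (by omega), fun _ => h3.mono (by omega)⟩
  · by_cases he2 : e + 1 = 2 ^ (K + 1)
    · have he3 : e = 2 ^ (K + 1) - 1 := by omega
      rcases hD with hD | hD
      · subst hD
        rcases hlow with h | ⟨j, hj⟩ | ⟨j, hj⟩
        · subst h
          rw [he3] at hde
          norm_num at hde
          rw [hde]
          exact ⟨s23.mono (by norm_num), fun _ => s23.mono (by norm_num)⟩
        · have h3 := m3_even j
          rw [← hj, ← he3, ← hde] at h3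
          exact ⟨h3.mono (by omega), fun _ => h3.mono (by omega)⟩
        · have h3 := m3_odd j
          rw [← hj, ← he3, ← hde] at h3
          exact ⟨h3.mono (by omega), fun _ => h3.mono (by omega)⟩
      · subst hD
        omega
    · by_cases he4 : D * 2 ^ (K + 1) + e ∈ exc
      · obtain ⟨h3, h4⟩ := exc_bound hD heK he4
        rw [← hde] at h3 h4
        exact ⟨h4, fun _ => h3⟩
      · have h3 := gen hD heo heK he1 he2 he4
        rw [← hde] at h3
        refine ⟨h3.mono (by omega), fun _ => h3.mono ?_⟩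
        have he5 : 3 ≤ e := by
          obtain ⟨m, hm⟩ := heo
          omega
        rcases hD with hD | hD <;> subst hD <;> omega

theorem log_facts {d : ℕ} (h : 17 ≤ d) (hd : Odd d) : ∃ K, 2 ≤ K ∧ 2 ^ (K + 2) < d ∧ d + 1 ≤ 2 ^ (K + 3) := by
  obtain ⟨l, hl⟩ : ∃ l, l = Nat.log 2 d := ⟨_, rfl⟩
  have h1 : 2 ^ l ≤ d := by rw [hl]; exact Nat.pow_log_le_self 2 (by omega)
  have h2 : d < 2 ^ (l + 1) := by rw [hl]; exact Nat.lt_pow_succ_log_self (by norm_num) d
  have hl4 : 4 ≤ l := by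
    by_contra h3
    have : 2 ^ (l + 1) ≤ 2 ^ 4 := Nat.pow_le_pow_right (by norm_num) (by omega)
    norm_num at this
    omega
  obtain ⟨K, rfl⟩ : ∃ K, l = K + 2 := ⟨l - 2, by omega⟩
  refine ⟨K, by omega, ?_, h2⟩
  rcases Nat.lt_or_ge (2 ^ (K + 2)) d with h3 | h3
  · exact h3
  · exfalso
    have h4 : d = 2 ^ (K + 2) := by omega
    rw [h4, pow_succ, mul_comm] at hd
    exact absurd (even_two_mul (2 ^ (K + 1))) (Nat.not_even_iff_odd.2 hd)

theorem sp_up {k : ℕ} (hk : 5 ≤ k) : NoRun 1 (2 ^ k - 1) (2 ^ (k - 1) + (if Even k then 2 else 4)) := by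
  rcases Nat.even_or_odd k with h | h
  · rw [if_pos h]
    obtain ⟨c, hc⟩ := h
    obtain ⟨j, rfl⟩ : ∃ j, c = j + 3 := ⟨c - 3, by omega⟩
    have e1 : k = 2 * j + 6 := by omega
    subst e1
    have e2 : 2 * j + 6 - 1 = 2 * j + 5 := by omega
    rw [e2]
    exact minus_even j
  · rw [if_neg (Nat.not_even_iff_odd.2 h)]
    obtain ⟨c, hc⟩ := h
    obtain ⟨j, rfl⟩ : ∃ j, c = j + 2 := ⟨c - 2, by omega⟩
    have e1 : k = 2 * j + 5 := by omega
    subst e1
    have e2 : 2 * j + 5 - 1 = 2 * j + 4 := by omega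
    rw [e2]
    exact minus_odd j

theorem sp_low {k : ℕ} (hk : 5 ≤ k) : HasRun 1 (2 ^ k - 1) (2 ^ (k - 1) + (if Even k then 1 else 3)) := by
  obtain ⟨k', rfl⟩ : ∃ k', k = k' + 1 := ⟨k - 1, by omega⟩
  have e2 : k' + 1 - 1 = k' := by omega
  rw [e2]
  rcases Nat.even_or_odd k' with h | h
  · rw [if_neg (Nat.not_even_iff_odd.2 h.add_one)]
    exact run_rs_odd h (by omega)
  · rw [if_pos h.add_one]
    exact run_rs_even h (by omega)

/-- odd differences -/
theorem odd_bound {d : ℕ} (hd : Odd d) (h23 : 23 ≤ d) :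
    NoRun 1 d ((d + 7) / 2 + 1) ∧ (¬ Sp d → NoRun 1 d ((d + 7) / 2)) := by
  obtain ⟨K, hK, h1, h2⟩ := log_facts (by omega) hd
  have p3 : 2 ^ (K + 3) = 2 * 2 ^ (K + 2) := by ring
  rcases Nat.lt_or_ge (d + 1) (2 ^ (K + 3)) with h3 | h3
  · have h4 := (cases_bound hK hd h1 h3).2 h23
    exact ⟨h4.mono (by omega), fun _ => h4⟩
  · have h5 := sp_up (k := K + 3) (by omega)
    have e2 : K + 3 - 1 = K + 2 := by omega
    have e3 : d = 2 ^ (K + 3) - 1 := by omega
    rw [e2, ← e3] at h5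
    rcases Nat.even_or_odd (K + 3) with h | h
    · rw [if_pos h] at h5
      exact ⟨h5.mono (by omega), fun _ => h5.mono (by omega)⟩
    · rw [if_neg (Nat.not_even_iff_odd.2 h)] at h5
      exact ⟨h5.mono (by omega), fun hns => absurd ⟨K + 3, by omega, h, e3⟩ hns⟩

/-- all differences, first question -/
theorem bound {d : ℕ} (h23 : 23 ≤ d) : NoRun 1 d ((d + 7) / 2 + 1) ∧ (¬ Sp d → NoRun 1 d ((d + 8) / 2)) := by
  rcases Nat.even_or_odd d with h | h
  · obtain ⟨a, m, hm, hdm⟩ := Nat.exists_eq_two_pow_mul_odd (n := d) (by omega)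
    have hm1 : 1 ≤ m := by
      obtain ⟨z, hz⟩ := hm
      omega
    have ha : a ≠ 0 := by
      intro h0
      subst h0
      rw [hdm, pow_zero, one_mul] at h
      exact absurd h (Nat.not_even_iff_odd.2 hm)
    obtain ⟨a', rfl⟩ : ∃ a', a = a' + 1 := ⟨a - 1, by omega⟩
    have h3 : 2 * m ≤ d := by
      rw [hdm, pow_succ]
      have : 1 ≤ 2 ^ a' := Nat.one_le_two_pow
      nlinarith
    obtain ⟨z, hz⟩ := h
    rcases Nat.lt_or_ge m 23 with hm23 | hm23
    · have hm21 : m ≤ 21 := by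
        obtain ⟨y, hy⟩ := hm
        omega
      have h2 := NoRun.of_odd le_rfl (a' + 1) (small hm hm21)
      rw [← hdm] at h2
      exact ⟨h2.mono (by omega), fun _ => h2.mono (by omega)⟩
    · obtain ⟨h1, -⟩ := odd_bound hm hm23
      have h2 := NoRun.of_odd le_rfl (a' + 1) h1
      rw [← hdm] at h2
      exact ⟨h2.mono (by omega), fun _ => h2.mono (by omega)⟩
  · obtain ⟨h1, h2⟩ := odd_bound h h23
    exact ⟨h1, fun hns => (h2 hns).mono (by omega)⟩

/-- second question, odd differences -/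
theorem below_odd {k d : ℕ} (hk : 5 ≤ k) (hd : Odd d) (h : d + 2 ≤ 2 ^ k) : NoRun 1 d (2 ^ (k - 1) + 1) := by
  obtain ⟨l, rfl⟩ : ∃ l, k = l + 3 := ⟨k - 3, by omega⟩
  have e2 : l + 3 - 1 = l + 2 := by omega
  rw [e2]
  have hl : 4 ≤ 2 ^ l := by
    calc 4 = 2 ^ 2 := by norm_num
      _ ≤ 2 ^ l := Nat.pow_le_pow_right (by norm_num) (by omega)
  have p1 : 2 ^ (l + 1) = 2 * 2 ^ l := by ring
  have p2 : 2 ^ (l + 2) = 4 * 2 ^ l := by ring
  have p3 : 2 ^ (l + 3) = 8 * 2 ^ l := by ring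
  rcases Nat.lt_or_ge d 22 with h22 | h22
  · exact (small hd (by omega)).mono (by omega)
  · obtain ⟨K, hK, h1, h2⟩ := log_facts (by omega) hd
    have hKl : K ≤ l := by
      by_contra hlt
      have : 2 ^ (l + 3) ≤ 2 ^ (K + 2) := Nat.pow_le_pow_right (by norm_num) (by omega)
      omega
    have hpow : 2 ^ (K + 1) ≤ 2 ^ (l + 1) := Nat.pow_le_pow_right (by norm_num) (by omega)
    rcases Nat.lt_or_ge (d + 1) (2 ^ (K + 3)) with h3 | h3
    · exact (cases_bound hK hd h1 h3).1.mono (by omega)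
    · have e3 : d = 2 ^ (K + 3) - 1 := by omega
      have hKl2 : K + 1 ≤ l := by
        by_contra hlt
        have hKe : K = l := by omega
        subst hKe
        omega
      have hpow2 : 2 ^ (K + 2) ≤ 2 ^ (l + 1) := Nat.pow_le_pow_right (by norm_num) (by omega)
      have h5 := sp_up (k := K + 3) (by omega)
      have e4 : K + 3 - 1 = K + 2 := by omega
      rw [e4, ← e3] at h5
      apply h5.mono
      split_ifs <;> omega

/-- second question -/
theorem below {k d : ℕ} (hk : 5 ≤ k) (hd : 1 ≤ d) (h : d + 2 ≤ 2 ^ k) : NoRun 1 d (2 ^ (k - 1) + 1) := by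
  obtain ⟨a, m, hm, hdm⟩ := Nat.exists_eq_two_pow_mul_odd (n := d) (by omega)
  have hmd : m ≤ d := by
    rw [hdm]
    have : 1 ≤ 2 ^ a := Nat.one_le_two_pow
    nlinarith
  have h2 := NoRun.of_odd le_rfl a (below_odd hk hm (by omega))
  rw [← hdm] at h2
  exact h2

end Q251.MA.RS
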