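import Mathlib
import Pool.Agent.Q251.MA.Low

set_option autoImplicit false

/-! Translation to the definitions of the problems. -/

namespace Q251.MA

theorem count_digits (n : ℕ) : (Nat.digits 2 n).count 1 = G 0 n := by
  induction n using Nat.strong_induction_on with
  | _ n ih =>
    rcases Nat.eq_zero_or_pos n with h | h
    · subst h
      simp [G_zero]
    · rw [Nat.digits_def' (by norm_num) h, List.count_cons, ih (n / 2) (by omega), G_rec 0 n, hw_zero]
      rcases Nat.mod_two_eq_zero_or_one n with h1 | h1 <;> rw [h1] <;> simp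

theorem blocks_eq (n : ℕ) : {i : ℕ | n.testBit i = true ∧ n.testBit (i + 1) = true}.ncard = G 1 n := by
  have hfin : ∀ n : ℕ, {i : ℕ | n.testBit i = true ∧ n.testBit (i + 1) = true}.Finite := by
    intro n
    apply (Set.finite_lt_nat n).subset
    intro i hi
    have := Nat.ge_two_pow_of_testBit hi.1
    have h2 : i < 2 ^ i := Nat.lt_two_pow_self
    simp only [Set.mem_ofPred_eq]
    omega
  induction n using Nat.strong_induction_on with
  | _ n ih =>
    rcases Nat.eq_zero_or_pos n with h | h
    · subst h
      simp [G_zero]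
    · have h1 := ih (n / 2) (by omega)
      have hs : ∀ i, n.testBit (i + 1) = (n / 2).testBit i := fun i => Nat.testBit_succ n i
      have hset : {i : ℕ | n.testBit i = true ∧ n.testBit (i + 1) = true} =
          Nat.succ '' {i : ℕ | (n / 2).testBit i = true ∧ (n / 2).testBit (i + 1) = true} ∪
            (if n % 2 = 1 ∧ n / 2 % 2 = 1 then {0} else ∅) := by
        ext i
        simp only [Set.mem_ofPred_eq, Set.mem_union, Set.mem_image]
        constructor
        · rintro ⟨h2, h3⟩
          cases i with
          | zero =>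
            right
            rw [hs, Nat.testBit_zero] at h3
            rw [Nat.testBit_zero] at h2
            simp only [decide_eq_true_eq] at h2 h3
            rw [if_pos ⟨h2, h3⟩]
            rfl
          | succ i =>
            left
            rw [hs] at h2 h3
            exact ⟨i, ⟨h2, h3⟩, rfl⟩
        · rintro (⟨j, ⟨h2, h3⟩, rfl⟩ | h2)
          · rw [Nat.succ_eq_add_one, hs, hs]
            exact ⟨h2, h3⟩
          · split_ifs at h2 with hc
            · have hi : i = 0 := h2
              subst hi
              rw [hs, Nat.testBit_zero, Nat.testBit_zero]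
              simpa using hc
            · exact absurd h2 (Set.notMem_empty i)
      have hd : Disjoint (Nat.succ '' {i : ℕ | (n / 2).testBit i = true ∧ (n / 2).testBit (i + 1) = true})
          (if n % 2 = 1 ∧ n / 2 % 2 = 1 then ({0} : Set ℕ) else ∅) := by
        rw [Set.disjoint_left]
        rintro i ⟨j, -, rfl⟩ h2
        split_ifs at h2
        · exact absurd h2 (Nat.succ_ne_zero j)
        · exact h2
      rw [hset, Set.ncard_union_eq hd ((hfin (n / 2)).image _) (by split_ifs <;> simp),
        Set.ncard_image_of_injective _ Nat.succ_injective, h1, G_rec 1 n, hw_one]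
      congr 1
      rcases Nat.mod_two_eq_zero_or_one n with h2 | h2 <;>
        rcases Nat.mod_two_eq_zero_or_one (n / 2) with h3 | h3 <;> rw [h2, h3] <;> simp

/-- upper bounds for the maximal length -/
theorem sup_le {r : ℕ} {c : ℕ → ℕ} (hc : ∀ n, c n = G r n % 2) {d m : ℕ} (h : NoRun r d (m + 1)) :
    (⨆ n : ℕ, ⨆ (l : ℕ) (_ : ∀ j < l, c (n + j * d) = c n), (l : ℕ∞)) ≤ (m : ℕ∞) := by
  apply iSup_le
  intro n
  apply iSup_le
  intro l
  apply iSup_le
  intro hl
  rw [Nat.cast_le]
  by_contra hlt
  apply h n
  intro j hj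
  apply bodd_eq_of_mod
  have := hl j (by omega)
  rw [hc, hc] at this
  exact this

/-- lower bounds for the maximal length -/
theorem le_sup {r : ℕ} {c : ℕ → ℕ} (hc : ∀ n, c n = G r n % 2) {d m : ℕ} (h : HasRun r d m) :
    (m : ℕ∞) ≤ (⨆ n : ℕ, ⨆ (l : ℕ) (_ : ∀ j < l, c (n + j * d) = c n), (l : ℕ∞)) := by
  obtain ⟨n, hn⟩ := h
  refine le_trans ?_ (le_iSup _ n)
  refine le_trans ?_ (le_iSup _ m)
  refine le_iSup_of_le ?_ le_rfl
  intro j hj
  rw [hc, hc]
  exact mod_eq_of_bodd (hn j hj)

end Q251.MA
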