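import Mathlib
import Pool.Agent.Q251.MA.DataTM
import Pool.Agent.Q251.MA.Chain
import Pool.Agent.Q251.MA.Low

set_option autoImplicit false

/-! Thue-Morse: the bounds. -/

namespace Q251.MA.TM

theorem chkW_p : chkW p = true := by decide +kernel

theorem chkM : chkT p ls exc main 1 1 = true := by decide +kernel

theorem chkLs : ∀ l ∈ ls, chkLp p ls l = true := by
  intro l hl
  have : ls.all (fun l => chkLp p ls l) = true := by decide +kernel
  exact List.all_eq_true.1 this l hl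

theorem P_eq : tab 0 5 = P := by decide +kernel

theorem T_eq : tab 0 9 = T := by decide +kernel

theorem isTab_P : IsTab 0 5 P := by
  rw [← P_eq]
  exact isTab_tab (by norm_num) 5

theorem isTab_T : IsTab 0 9 T := by
  rw [← T_eq]
  exact isTab_tab (by norm_num) 9

theorem gen {K e : ℕ} (he : Odd e) (heK : e < 2 ^ (K + 1)) (h1 : e ≠ 1) (h2 : e + 1 ≠ 2 ^ (K + 1))
    (h3 : 2 ^ (K + 1) + e ≠ 51) : NoRun 0 (2 ^ (K + 1) + e) (2 ^ (K + 1) + 3) := by
  have h := main_ok (p := p) (by norm_num [p]) isTab_T isTab_P chkW_p chkLs chkM (K := K) (e := e) (D := 1) he heK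
    (Or.inl rfl) h1 h2 (by
      have : exc = [51] := rfl
      rw [this, List.mem_singleton, one_mul]
      exact h3)
  have e1 : 1 * 2 ^ (K + 1) + e = 2 ^ (K + 1) + e := by ring
  rw [e1] at h
  exact h

theorem d51 : NoRun 0 51 10 := dir_noRun (h := 8) (by norm_num) (by decide +kernel)

theorem d3 : NoRun 0 3 9 := dir_noRun (h := 4) (by norm_num) (by decide +kernel)

theorem d1 : NoRun 0 1 3 := dir_noRun (h := 1) (by norm_num) (by decide +kernel)

theorem odd_two_pow_add {K e : ℕ} (he : Odd e) : Odd (2 ^ (K + 1) + e) := by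
  rw [pow_succ, mul_comm]
  exact Even.add_odd (even_two_mul _) he

/-- `d = 2 ^ K + 1`, `K` odd -/
theorem plus_odd (j : ℕ) : NoRun 0 (2 ^ (2 * j + 3) + 1) (2 ^ (2 * j + 3) + 5) := by
  obtain ⟨h1, h2⟩ := chain_bad (r := 0) (by norm_num) (T := T) (K := 2) (e := 1) (ρ := 5) (a := 1) (b := 0) (D := 1)
    (N := 6) isTab_T isTab_P (by norm_num) (by norm_num) (by norm_num) (by norm_num) (by decide +kernel) j
  have e0 : 2 + 2 * j + 1 = 2 * j + 3 := by ring
  rw [e0] at h1 h2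
  have e1 : 1 * 2 ^ (2 * j + 3) + (1 + 0 * (2 ^ (2 * j + 3) - 2 ^ (2 + 1))) = 2 ^ (2 * j + 3) + 1 := by ring
  rw [e1] at h2
  exact h2.noRun (odd_two_pow_add odd_one) h1

/-- `d = 2 ^ K + 1`, `K` even -/
theorem plus_even (j : ℕ) : NoRun 0 (2 ^ (2 * j + 2) + 1) (2 ^ (2 * j + 2) + 3) := by
  obtain ⟨h1, h2⟩ := chain_bad (r := 0) (by norm_num) (T := T) (K := 1) (e := 1) (ρ := 2) (a := 1) (b := 0) (D := 1)
    (N := 4) isTab_T isTab_P (by norm_num) (by norm_num) (by norm_num) (by norm_num) (by decide +kernel) j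
  have e0 : 1 + 2 * j + 1 = 2 * j + 2 := by ring
  rw [e0] at h1 h2
  have e1 : 1 * 2 ^ (2 * j + 2) + (1 + 0 * (2 ^ (2 * j + 2) - 2 ^ (1 + 1))) = 2 ^ (2 * j + 2) + 1 := by ring
  rw [e1] at h2
  exact h2.noRun (odd_two_pow_add odd_one) h1

/-- `d = 2 ^ k - 1`, `k` even -/
theorem minus_even (j : ℕ) : NoRun 0 (2 ^ (2 * j + 2) - 1) (2 ^ (2 * j + 2) + 5) := by
  match j with
  | 0 => exact d3
  | j + 1 =>
    obtain ⟨h1, h2⟩ := chain_bad (r := 0) (by norm_num) (T := T) (K := 3) (e := 15) (ρ := 2) (a := 0) (b := 1)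
      (D := 0) (N := 6) isTab_T isTab_P (by norm_num) (by norm_num) (by norm_num) (by norm_num) (by decide +kernel) j
    have e0 : 3 + 2 * j + 1 = 2 * (j + 1) + 2 := by ring
    rw [e0] at h1 h2
    have hle : 2 ^ (3 + 1) ≤ 2 ^ (2 * (j + 1) + 2) := Nat.pow_le_pow_right (by norm_num) (by omega)
    have e1 : 0 * 2 ^ (2 * (j + 1) + 2) + (15 + 1 * (2 ^ (2 * (j + 1) + 2) - 2 ^ (3 + 1))) =
        2 ^ (2 * (j + 1) + 2) - 1 := by
      norm_num at hle ⊢
      omega
    rw [e1] at h2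
    apply h2.noRun _ h1
    have e2 : 2 ^ (2 * (j + 1) + 2) = 2 * 2 ^ (2 * j + 3) := by ring
    have hp : 1 ≤ 2 ^ (2 * j + 3) := Nat.one_le_two_pow
    rw [e2]
    exact ⟨2 ^ (2 * j + 3) - 1, by omega⟩

/-- `d = 2 ^ k - 1`, `k` odd -/
theorem minus_odd (j : ℕ) : NoRun 0 (2 ^ (2 * j + 1) - 1) (2 ^ (2 * j + 1) + 1) := by
  obtain ⟨h1, h2⟩ := chain_bad (r := 0) (by norm_num) (T := T) (K := 0) (e := 1) (ρ := 0) (a := 0) (b := 1) (D := 0)
    (N := 2) isTab_T isTab_P (by norm_num) (by norm_num) (by norm_num) (by norm_num) (by decide +kernel) j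
  have e0 : 0 + 2 * j + 1 = 2 * j + 1 := by ring
  rw [e0] at h1 h2
  have hle : 2 ^ (0 + 1) ≤ 2 ^ (2 * j + 1) := Nat.pow_le_pow_right (by norm_num) (by omega)
  have e1 : 0 * 2 ^ (2 * j + 1) + (1 + 1 * (2 ^ (2 * j + 1) - 2 ^ (0 + 1))) = 2 ^ (2 * j + 1) - 1 := by
    norm_num at hle ⊢
    omega
  rw [e1] at h2
  apply h2.noRun _ h1
  have e2 : 2 ^ (2 * j + 1) = 2 * 2 ^ (2 * j) := by ring
  have hp : 1 ≤ 2 ^ (2 * j) := Nat.one_le_two_pow
  rw [e2]
  exact ⟨2 ^ (2 * j) - 1, by omega⟩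

/-- the strong bound for odd differences which are not of the form `2 ^ k - 1` -/
theorem strong {K d : ℕ} (hd : Odd d) (h1 : 2 ^ K < d) (h2 : d + 1 < 2 ^ (K + 1)) : NoRun 0 d (2 ^ K + 5) := by
  obtain ⟨K', rfl⟩ : ∃ K', K = K' + 1 := by
    refine ⟨K - 1, ?_⟩
    rcases Nat.eq_zero_or_pos K with h | h
    · subst h
      norm_num at h1 h2
      omega
    · omega
  obtain ⟨e, he⟩ : ∃ e, d = 2 ^ (K' + 1) + e := ⟨d - 2 ^ (K' + 1), by omega⟩
  subst he
  have hpe : Even (2 ^ (K' + 1)) := by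
    rw [pow_succ, mul_comm]
    exact even_two_mul _
  have heo : Odd e := (Nat.odd_add'.1 hd).2 hpe
  have hp : 2 ^ (K' + 1 + 1) = 2 * 2 ^ (K' + 1) := by ring
  by_cases he1 : e = 1
  · subst he1
    rcases Nat.even_or_odd' (K' + 1) with ⟨c, hc | hc⟩
    · obtain ⟨j, hj⟩ : ∃ j, c = j + 1 := ⟨c - 1, by omega⟩
      have e3 : K' + 1 = 2 * j + 2 := by omega
      rw [e3]
      exact (plus_even j).mono (by omega)
    · have hc0 : c ≠ 0 := by
        intro h0
        subst h0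
        have hK0 : K' = 0 := by omega
        subst hK0
        norm_num at h2
      obtain ⟨j, hj⟩ : ∃ j, c = j + 1 := ⟨c - 1, by omega⟩
      have e3 : K' + 1 = 2 * j + 3 := by omega
      rw [e3]
      exact plus_odd j
  · by_cases h51 : 2 ^ (K' + 1) + e = 51
    · rw [h51]
      apply d51.mono
      have : e < 2 ^ (K' + 1) := by omega
      omega
    · exact (gen heo (by omega) he1 (by omega) h51).mono (by omega)

/-- no difference `2 ^ k - 1` with `k` even -/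
def Sp (d : ℕ) : Prop := ∃ k, 2 ≤ k ∧ Even k ∧ d = 2 ^ k - 1

theorem odd_bound {d : ℕ} (hd : Odd d) : NoRun 0 d (d + 6) ∧ (¬ Sp d → NoRun 0 d (d + 5)) := by
  have hd0 : d ≠ 0 := by
    obtain ⟨m, hm⟩ := hd
    omega
  obtain ⟨K, hK⟩ : ∃ K, K = Nat.log 2 d := ⟨_, rfl⟩
  have h1 : 2 ^ K ≤ d := by rw [hK]; exact Nat.pow_log_le_self 2 hd0
  have h2 : d < 2 ^ (K + 1) := by rw [hK]; exact Nat.lt_pow_succ_log_self (by norm_num) d
  by_cases h3 : d + 1 = 2 ^ (K + 1)
  · rcases Nat.even_or_odd' (K + 1) with ⟨c, hc | hc⟩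
    · obtain ⟨j, hj⟩ : ∃ j, c = j + 1 := ⟨c - 1, by omega⟩
      have e3 : K + 1 = 2 * j + 2 := by omega
      rw [e3] at h3
      have e4 : d = 2 ^ (2 * j + 2) - 1 := by omega
      have h5 := minus_even j
      rw [← e4, ← h3] at h5
      refine ⟨h5, fun hns => ?_⟩
      exfalso
      apply hns
      exact ⟨2 * j + 2, by omega, ⟨j + 1, by ring⟩, e4⟩
    · have e3 : K + 1 = 2 * c + 1 := by omega
      rw [e3] at h3
      have e4 : d = 2 ^ (2 * c + 1) - 1 := by omega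
      have h5 := minus_odd c
      rw [← e4, ← h3] at h5
      exact ⟨h5.mono (by omega), fun _ => h5.mono (by omega)⟩
  · have h4 : 2 ^ K < d := by
      rcases Nat.lt_or_ge (2 ^ K) d with h | h
      · exact h
      · exfalso
        have h5 : d = 2 ^ K := by omega
        rcases Nat.eq_zero_or_pos K with hK0 | hK0
        · rw [hK0] at h5 h3
          rw [h5] at h3
          norm_num at h3
        · obtain ⟨K', rfl⟩ : ∃ K', K = K' + 1 := ⟨K - 1, by omega⟩
          rw [h5, pow_succ, mul_comm] at hd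
          exact absurd (even_two_mul (2 ^ K')) (Nat.not_even_iff_odd.2 hd)
    have h5 := strong hd h4 (by omega)
    exact ⟨h5.mono (by omega), fun _ => h5.mono (by omega)⟩

theorem bound {d : ℕ} (hd : 1 ≤ d) : NoRun 0 d (d + 6) ∧ (¬ Sp d → NoRun 0 d (d + 5)) := by
  rcases Nat.even_or_odd d with h | h
  · obtain ⟨a, m, hm, hdm⟩ := Nat.exists_eq_two_pow_mul_odd (n := d) (by omega)
    obtain ⟨h1, -⟩ := odd_bound hm
    have hm1 : 1 ≤ m := by
      obtain ⟨z, hz⟩ := hm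
      omega
    have ha : a ≠ 0 := by
      intro h0
      subst h0
      rw [hdm, pow_zero, one_mul] at h
      exact absurd h (Nat.not_even_iff_odd.2 hm)
    obtain ⟨a', rfl⟩ : ∃ a', a = a' + 1 := ⟨a - 1, by omega⟩
    have h2 := NoRun.of_odd (by norm_num) (a' + 1) h1
    rw [← hdm] at h2
    have h3 : m + 1 ≤ d := by
      rw [hdm, pow_succ]
      have : 1 ≤ 2 ^ a' := Nat.one_le_two_pow
      nlinarith
    exact ⟨h2.mono (by omega), fun _ => h2.mono (by omega)⟩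
  · exact odd_bound h

theorem Sp.run {d : ℕ} (h : Sp d) : HasRun 0 d (d + 5) := by
  obtain ⟨k, hk, hke, rfl⟩ := h
  obtain ⟨k', rfl⟩ : ∃ k', k = k' + 1 := ⟨k - 1, by omega⟩
  have hko : Odd k' := by
    rcases Nat.even_or_odd k' with h | h
    · exact absurd hke (Nat.not_even_iff_odd.2 (h.add_one))
    · exact h
  have h1 := run_tm hko
  have hp : 1 ≤ 2 ^ (k' + 1) := Nat.one_le_two_pow
  have e : 2 ^ (k' + 1) - 1 + 5 = 2 ^ (k' + 1) + 4 := by omega
  rw [e]
  exact h1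

end Q251.MA.TM
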